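import Pool.Agent.Lib.Pa7c826t.AlgT

/-!
The algorithm as a function of the input string, and its running time.
-/

namespace Pool.Agent.Lib.Pa7c826r

open Pool.Agent.Lib.PolyTime Pool.Agent.Lib.Pa7c826 Finset
open Pool.Agent.Lib.Pa7c826t hiding gw Yw Kw algT upoly_gw upoly_Yw upoly_Kw upolyA_alive upolyF_leaf algT_poly

/-- size of the input: number of vertices plus precision -/
def lw (w : List Bool) : ℕ := nOf w + tOf w

/-- the branching threshold is `|S₀| / gw` -/
def gw (C : ℕ) (w : List Bool) : ℕ := 2 * C * Nat.log 2 (lw w)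

/-- precision -/
def Yw (C : ℕ) (w : List Bool) : ℕ := tOf w * (lw w + 1) ^ (13 * C)

/-- leaf threshold -/
def Kw (C : ℕ) (w : List Bool) : ℕ := ((lw w + 1) ^ C * Yw C w ^ 24) ^ 24

/-- the output of the algorithm -/
def algT (C : ℕ) (w : List Bool) : ℕ :=
  2 ^ (nOf w - (nonIso w).card) *
    outA (nOf w) (aOf w) (gw C w) (adjOf w) (nonIso w) (Yw C w ^ 24) (Kw C w)

theorem upoly_lw : UPoly lw := by
  intro β D' ctx' w' hw
  exact (poly_nOf hw).add (poly_tOf hw)

theorem upoly_logR : UPoly (fun w => Nat.log 2 (lw w)) := by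
  intro β D' ctx' w' hw
  have W := up (n := fun b => lw (w' b)) hw
  have L := last (D := D') (ctx := ctx') (n := fun b => lw (w' b))
  refine (PolyN.count (φ := fun p : β × ℕ => decide (1 ≤ lw (w' p.1) / 2 ^ (p.2 + 1)))
    (upoly_lw hw) (PolyB.le (PolyN.const 1) (PolyN.divPow (upoly_lw W) L.succ))).congr
    (fun b _ => log_eq_card _)

theorem upoly_gw (C : ℕ) : UPoly (gw C) := by
  intro β D' ctx' w' hw
  exact (PolyN.const (2 * C)).mul (upoly_logR hw)

theorem upoly_Yw (C : ℕ) : UPoly (Yw C) := by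
  intro β D' ctx' w' hw
  exact (poly_tOf hw).mul (PolyN.pow (upoly_lw hw).succ _)

theorem upoly_Kw (C : ℕ) : UPoly (Kw C) := by
  intro β D' ctx' w' hw
  exact PolyN.pow ((PolyN.pow (upoly_lw hw).succ _).mul (PolyN.pow (upoly_Yw C hw) 24)) 24

theorem upolyA_alive (C : ℕ) :
    UPolyA (fun w => alive (nOf w) (aOf w) (adjOf w) (nonIso w) (Yw C w ^ 24)) := by
  intro β D' ctx' w' S hw hS
  have hn := poly_nOf hw
  have hS0 := upolyS_nonIso hw
  have e1 := (poly_nu hw hS).add (PolyS.card hn hS0)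
  have e2 := (poly_nu hw hS0).add (PolyS.card hn hS)
  exact PolyB.le (PolyN.const 1)
    (PolyN.divPow (PolyN.pow (upoly_Yw C hw) 24) (PolyN.sub e1 e2))

theorem upolyF_leaf (C : ℕ) :
    UPolyF (fun w S => leaf (nOf w) (adjOf w) (Kw C w) S) := by
  intro β D' ctx' w' S hw hS
  exact poly_leaf (upoly_Kw C) hw hS

/-- The algorithm runs in polynomial time on all inputs on which the levels of the tree are
polynomially bounded. -/
theorem algT_poly (C : ℕ) {α : Type} {D : α → Prop} {ctx : List (α → List Bool)}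
    {w : α → List Bool} (hw : PolyC D ctx w) {B : α → ℕ} (hB : PolyN D ctx B)
    (hlen : ∀ x, D x → ∀ j, j ≤ nOf (w x) → (plv (nOf (w x)) (nonIso (w x)).card (gw C (w x))
      (adjOf (w x)) (alive (nOf (w x)) (aOf (w x)) (adjOf (w x)) (nonIso (w x)) (Yw C (w x) ^ 24))
      (nonIso (w x)) j).length ≤ B x) :
    PolyBin D ctx (fun x => algT C (w x)) := by
  have h1 := poly_plv (m := fun w => (nonIso w).card) (g := gw C)
    (al := fun w => alive (nOf w) (aOf w) (adjOf w) (nonIso w) (Yw C w ^ 24)) (S₀ := nonIso)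
    upoly_cardNonIso (upoly_gw C) (upolyA_alive C) upolyS_nonIso hw (poly_nOf hw) hB hlen
  have h2 := poly_sum_codeL (F := fun w S => leaf (nOf w) (adjOf w) (Kw C w) S)
    (upolyF_leaf C) hw h1 (fun x hx S hS =>
    (plv_subset _ S hS).trans (filter_subset _ _))
  exact PolyBin.mulPow2 h2 (PolyN.sub (poly_nOf hw) (upoly_cardNonIso hw))

end Pool.Agent.Lib.Pa7c826r
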