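import Pool.Agent.Lib.Pa7c826r.HostAR

/-!
The approximation guarantee of the pruned branching algorithm, for graphs that contain an almost
regular spanning subgraph. The proofs are those in `Dead`, `AliveLeaf` and `ApproxT` of
`Pa7c826t`.
-/

namespace Pool.Agent.Lib.Pa7c826r

open Finset Pool.Agent.Lib.Pa7c826 Pool.Agent.Lib.Pa7c826t

/-- Dead leaves carry little weight. -/
theorem dead_weightR {n a g : ℕ} {adj fac : ℕ → ℕ → Bool} (hs : ∀ u v, adj u v = adj v u)
    (hl : ∀ u, adj u u = false) (p : ℕ → Prop) [DecidablePred p]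
    (hp : (∀ v, p v ↔ v < a) ∨ ∀ v, p v ↔ ¬ v < a)
    (hbip : ∀ u v, adj u v = true → (u < a ↔ ¬ v < a)) {S₀ : Finset ℕ} {D q H : ℕ}
    (hh : Pa7c826r.Host n g adj fac p S₀ D q H) {Y : ℕ} (hY : 1 ≤ Y) :
    Y * (((lvw n S₀.card g adj S₀ n).map Prod.fst).filter
        (fun S => !alive n a adj S₀ (Y ^ 24) S)|>.map (ind adj)).sum ≤
      2 ^ (3 * H + 5 * g) * ind adj S₀ := by
  have hbipp : ∀ u v, adj u v = true → (p u ↔ ¬ p v) := by
    intro u v h
    have h1 := hbip u v h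
    rcases hp with hp | hp
    · rw [hp, hp]; exact h1
    · rw [hp, hp]; tauto
  set b := (S₀.filter (fun u => ¬ p u)).card with hb
  obtain ⟨hα1, hα2, _⟩ := host_alphaR hs hl p hp hbip hh
  rw [← hb] at hα1 hα2
  have hroot := hh.root hbipp (lam := 1 / 32) (by norm_num) (by norm_num)
  rw [← hb] at hroot
  have hsum := sum_lvw (m := S₀.card) (g := g) hs hl hh.sub (1 / 32 : ℝ) n
  set L := lvw n S₀.card g adj S₀ n with hL
  have hnode : ∀ x ∈ L, (!alive n a adj S₀ (Y ^ 24) x.1) = true →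
      ((Y : ℝ) * (33 / 32) ^ (2 * b)) * (ind adj x.1 : ℝ) ≤
        (2 ^ (b + H) * (33 / 32) ^ (b + H) * 32 ^ g) * ((1 / 32 : ℝ) ^ x.2 * wind adj (1 / 32) x.1) := by
    intro x hx hdead
    have hsub : x.1 ⊆ S₀ := (lvw_props hh.sub n x hx).1
    have hsubn : x.1 ⊆ range n := hsub.trans hh.sub
    have hle : x.2 ≤ g := lvw_le hh.sub rfl hh.pos n x hx
    have hlight := lvw_light hh.sub x hx
    have hdeg : ∀ v ∈ x.1, 2 * dg adj x.1 v ≤ q := by
      intro v hv
      have h1 := hlight v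
      unfold hvy at h1
      simp only [Bool.and_eq_false_iff, decide_eq_false_iff_not, not_le] at h1
      have h2 : g * dg adj x.1 v < S₀.card := h1.resolve_left (fun h => h hv)
      have h3 := hh.hg
      have h4 : g * (2 * dg adj x.1 v) < g * q := by
        calc g * (2 * dg adj x.1 v) = 2 * (g * dg adj x.1 v) := by ring
          _ < 2 * S₀.card := by omega
          _ ≤ g * q := h3
      exact (lt_of_mul_lt_mul_left h4 (Nat.zero_le g)).le
    obtain ⟨M, hM, hMc⟩ := dead_mat (n := n) hs p hp hbip hsubn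
    have hleaf := (hh.leaf hs hbipp hsub hdeg hM).1
    rw [← hb, hMc] at hleaf
    have hmono := nu_mono hh.sub hs hbip hsub
    have hnle := nu_le hsubn hs hbip
    have hnle0 := nu_le hh.sub hs hbip
    have hwind := pow_le_wind_nu hsubn hs hbip (lam := (1 / 32 : ℝ)) (by norm_num)
    set ν := nu n a adj x.1 with hν
    set ν0 := nu n a adj S₀ with hν0
    obtain ⟨α, hα⟩ := Nat.exists_eq_add_of_le hnle
    have hαe : x.1.card - ν = α := by omega
    rw [hαe] at hwind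
    set e := (ν + S₀.card) - (ν0 + x.1.card) with he
    have he1 : α + e ≤ b + H := by omega
    have hYe : (Y : ℝ) ≤ (33 / 32) ^ e := by
      have hd : ¬ (1 ≤ Y ^ 24 / 2 ^ e) := by
        have h1 : alive n a adj S₀ (Y ^ 24) x.1 = false := by simpa using hdead
        unfold alive at h1
        rw [decide_eq_false_iff_not] at h1
        exact h1
      rw [Nat.one_le_div_iff (by positivity), not_le] at hd
      by_contra hcon
      rw [not_le] at hcon
      have h2 : ((2 : ℝ)) ^ e ≤ (Y : ℝ) ^ 24 := by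
        calc (2 : ℝ) ^ e ≤ ((33 / 32) ^ 24) ^ e := pow_le_pow_left₀ (by norm_num) (by norm_num) _
          _ = ((33 / 32) ^ e) ^ 24 := by rw [← pow_mul, ← pow_mul, mul_comm]
          _ ≤ (Y : ℝ) ^ 24 := pow_le_pow_left₀ (by positivity) hcon.le _
      have h3 : (2 : ℕ) ^ e ≤ Y ^ 24 := by exact_mod_cast h2
      omega
    have hi0 : (0 : ℝ) ≤ ind adj x.1 := Nat.cast_nonneg _
    have hleaf' : (ind adj x.1 : ℝ) * (33 / 32) ^ (2 * b) ≤ 2 ^ (b + H) * (33 / 32) ^ (2 * α) := by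
      have h1 : (ind adj x.1 : ℝ) * (33 / 32) ^ (2 * b) * (33 / 32) ^ (2 * ν) ≤
          2 ^ (b + H) * (33 / 32) ^ (2 * α) * (33 / 32) ^ (2 * ν) := by
        calc (ind adj x.1 : ℝ) * (33 / 32) ^ (2 * b) * (33 / 32) ^ (2 * ν)
            = (ind adj x.1 : ℝ) * (33 / 32) ^ (2 * (b + ν)) := by
              rw [mul_assoc, ← pow_add, ← mul_add]
          _ ≤ 2 ^ (b + H) * (33 / 32) ^ (2 * x.1.card) := hleaf
          _ = 2 ^ (b + H) * (33 / 32) ^ (2 * α) * (33 / 32) ^ (2 * ν) := by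
              rw [mul_assoc, ← pow_add, ← mul_add, hα, add_comm ν α]
      exact le_of_mul_le_mul_right h1 (by positivity)
    have hg1 : (1 : ℝ) ≤ 32 ^ g * (1 / 32) ^ x.2 := by
      obtain ⟨c, hc⟩ := Nat.exists_eq_add_of_le hle
      rw [hc, pow_add, one_div, inv_pow, mul_right_comm, mul_inv_cancel₀ (by positivity), one_mul]
      exact one_le_pow₀ (by norm_num)
    have hw0 : 0 ≤ wind adj (1 / 32) x.1 := wind_nonneg adj (by norm_num) _
    have hwind' : ((33 : ℝ) / 32) ^ α ≤ wind adj (1 / 32) x.1 := by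
      have h1 : (1 : ℝ) + 1 / 32 = 33 / 32 := by norm_num
      rw [h1] at hwind
      exact hwind
    calc ((Y : ℝ) * (33 / 32) ^ (2 * b)) * (ind adj x.1 : ℝ)
        = Y * ((ind adj x.1 : ℝ) * (33 / 32) ^ (2 * b)) := by ring
      _ ≤ (33 / 32) ^ e * (2 ^ (b + H) * (33 / 32) ^ (2 * α)) := by
          apply mul_le_mul hYe hleaf' (by positivity) (by positivity)
      _ = 2 ^ (b + H) * (33 / 32) ^ (α + e) * (33 / 32) ^ α := by
          rw [pow_add, two_mul, pow_add]; ring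
      _ ≤ 2 ^ (b + H) * (33 / 32) ^ (b + H) * wind adj (1 / 32) x.1 := by
          apply mul_le_mul _ hwind' (by positivity) (by positivity)
          apply mul_le_mul_of_nonneg_left _ (by positivity)
          exact pow_le_pow_right₀ (by norm_num) he1
      _ = 2 ^ (b + H) * (33 / 32) ^ (b + H) * (1 * wind adj (1 / 32) x.1) := by rw [one_mul]
      _ ≤ 2 ^ (b + H) * (33 / 32) ^ (b + H) * ((32 ^ g * (1 / 32) ^ x.2) * wind adj (1 / 32) x.1) := by
          gcongr
      _ = _ := by ring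
  have hmain := dead_list L (fun S => !alive n a adj S₀ (Y ^ 24) S) (ind adj)
    (fun x => (1 / 32 : ℝ) ^ x.2 * wind adj (1 / 32) x.1)
    (c := (Y : ℝ) * (33 / 32) ^ (2 * b)) (K := 2 ^ (b + H) * (33 / 32) ^ (b + H) * 32 ^ g)
    (by positivity) (fun x _ => mul_nonneg (by positivity) (wind_nonneg adj (by norm_num) _)) hnode
  rw [hsum] at hmain
  set T : ℕ := (((L.map Prod.fst).filter (fun S => !alive n a adj S₀ (Y ^ 24) S)).map (ind adj)).sum
    with hT
  have h2b : 2 ^ b ≤ ind adj S₀ := dead_two_pow p hbipp S₀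
  have hfin : (Y : ℝ) * T ≤ 2 ^ (3 * H + 5 * g) * 2 ^ b := by
    have h1 : ((Y : ℝ) * T) * (33 / 32) ^ (2 * b) ≤ (2 ^ (3 * H + 5 * g) * 2 ^ b) * (33 / 32) ^ (2 * b) := by
      calc ((Y : ℝ) * T) * (33 / 32) ^ (2 * b) = (Y : ℝ) * (33 / 32) ^ (2 * b) * T := by ring
        _ ≤ 2 ^ (b + H) * (33 / 32) ^ (b + H) * 32 ^ g * wind adj (1 / 32) S₀ := hmain
        _ ≤ 2 ^ (b + H) * (33 / 32) ^ (b + H) * 32 ^ g * (2 ^ H * (1 + 1 / 32) ^ b) := by
            gcongr
        _ = 2 ^ (b + 2 * H) * (33 / 32) ^ H * 2 ^ (5 * g) * (33 / 32) ^ (2 * b) := by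
            have e1 : (1 : ℝ) + 1 / 32 = 33 / 32 := by norm_num
            have e2 : (32 : ℝ) ^ g = 2 ^ (5 * g) := by rw [pow_mul]; norm_num
            rw [e1, e2]
            ring
        _ ≤ 2 ^ (b + 2 * H) * 2 ^ H * 2 ^ (5 * g) * (33 / 32) ^ (2 * b) := by
            gcongr
            norm_num
        _ = _ := by ring
    exact le_of_mul_le_mul_right h1 (by positivity)
  have hfin' : Y * T ≤ 2 ^ (3 * H + 5 * g) * 2 ^ b := by exact_mod_cast hfin
  exact hfin'.trans (Nat.mul_le_mul_left _ h2b)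

/-- Alive leaves have a small cover. -/
theorem alive_leafR {n a g : ℕ} {adj fac : ℕ → ℕ → Bool} (hs : ∀ u v, adj u v = adj v u)
    (hl : ∀ u, adj u u = false) (p : ℕ → Prop) [DecidablePred p]
    (hp : (∀ v, p v ↔ v < a) ∨ ∀ v, p v ↔ ¬ v < a)
    (hbip : ∀ u v, adj u v = true → (u < a ↔ ¬ v < a)) {S₀ : Finset ℕ} {D q H : ℕ}
    (hh : Pa7c826r.Host n g adj fac p S₀ D q H) {K : ℕ} (_hK : 1 ≤ K) {S : Finset ℕ} (hS : S ⊆ S₀)
    (hlight : ∀ v, hvy S₀.card g adj S v = false) (hal : alive n a adj S₀ K S = true) :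
    2 ^ (cov n adj S).card ≤ (2 ^ H * K) ^ 24 := by
  have hbipp : ∀ u v, adj u v = true → (p u ↔ ¬ p v) := by
    intro u v h
    have h1 := hbip u v h
    rcases hp with hp | hp
    · rw [hp, hp]; exact h1
    · rw [hp, hp]; tauto
  have hSn : S ⊆ range n := hS.trans hh.sub
  obtain ⟨hα1, _, _⟩ := host_alphaR hs hl p hp hbip hh
  have hdeg : ∀ v ∈ S, 2 * dg adj S v ≤ q := by
    intro v hv
    have h1 := hlight v
    unfold hvy at h1
    simp only [Bool.and_eq_false_iff, decide_eq_false_iff_not, not_le] at h1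
    have h2 : g * dg adj S v < S₀.card := h1.resolve_left (fun h => h hv)
    have h3 := hh.hg
    have h4 : g * (2 * dg adj S v) < g * q := by
      calc g * (2 * dg adj S v) = 2 * (g * dg adj S v) := by ring
        _ < 2 * S₀.card := by omega
        _ ≤ g * q := h3
    exact (lt_of_mul_lt_mul_left h4 (Nat.zero_le g)).le
  obtain ⟨M, hM, hMc⟩ := cov_matching hs hl p hbipp hSn
  have hleaf := (hh.leaf hs hbipp hS hdeg hM).2
  rw [← hMc] at hleaf
  have hind := two_pow_le_ind_nu hSn hs hbip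
  set b := (S₀.filter (fun u => ¬ p u)).card with hb
  set c := (cov n adj S).card with hc
  set α := S.card - nu n a adj S with hα
  set e := (nu n a adj S + S₀.card) - (nu n a adj S₀ + S.card) with he
  have hK2 : 2 ^ e ≤ K := by
    unfold alive at hal
    rwa [decide_eq_true_eq, Nat.one_le_div_iff (by positivity)] at hal
  have hbe : b ≤ α + e := by omega
  have h1 : (2 : ℝ) ^ α * (33 / 32) ^ c ≤ 2 ^ α * (2 ^ H * K) := by
    have hind' : (2 : ℝ) ^ α ≤ ind adj S := by exact_mod_cast hind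
    have hK2' : (2 : ℝ) ^ e ≤ K := by exact_mod_cast hK2
    calc (2 : ℝ) ^ α * (33 / 32) ^ c ≤ ind adj S * (33 / 32) ^ c := by gcongr
      _ ≤ 2 ^ (b + H) := hleaf
      _ ≤ 2 ^ (α + e + H) := pow_le_pow_right₀ (by norm_num) (by omega)
      _ = 2 ^ α * (2 ^ H * 2 ^ e) := by rw [pow_add, pow_add]; ring
      _ ≤ 2 ^ α * (2 ^ H * K) := by gcongr
  have h2 : ((33 : ℝ) / 32) ^ c ≤ 2 ^ H * K := le_of_mul_le_mul_left h1 (by positivity)
  have h3 : (2 : ℝ) ^ c ≤ (2 ^ H * K) ^ 24 := by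
    calc (2 : ℝ) ^ c ≤ ((33 / 32) ^ 24) ^ c := pow_le_pow_left₀ (by norm_num) (by norm_num) _
      _ = ((33 / 32) ^ c) ^ 24 := by rw [← pow_mul, ← pow_mul, mul_comm]
      _ ≤ (2 ^ H * K) ^ 24 := pow_le_pow_left₀ (by positivity) h2 _
  exact_mod_cast h3

/-- The approximation guarantee. -/
theorem outA_specR {n a g : ℕ} {adj fac : ℕ → ℕ → Bool} (hs : ∀ u v, adj u v = adj v u)
    (hl : ∀ u, adj u u = false) (p : ℕ → Prop) [DecidablePred p]
    (hp : (∀ v, p v ↔ v < a) ∨ ∀ v, p v ↔ ¬ v < a)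
    (hbip : ∀ u v, adj u v = true → (u < a ↔ ¬ v < a)) {S₀ : Finset ℕ} {D q H : ℕ}
    (hh : Pa7c826r.Host n g adj fac p S₀ D q H) {t Y K' : ℕ} (ht : 1 ≤ t)
    (hY : t * 2 ^ (3 * H + 5 * g) ≤ Y) (hK' : (2 ^ H * Y ^ 24) ^ 24 ≤ K') :
    outA n a g adj S₀ (Y ^ 24) K' ≤ ind adj S₀ ∧
      t * ind adj S₀ ≤ t * outA n a g adj S₀ (Y ^ 24) K' + ind adj S₀ := by
  have hY1 : 1 ≤ Y := by
    refine le_trans ?_ hY
    have : 0 < t * 2 ^ (3 * H + 5 * g) := by positivity
    exact this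
  have hK1 : 1 ≤ Y ^ 24 := Nat.one_le_pow _ _ hY1
  have h1 : outA n a g adj S₀ (Y ^ 24) K' =
      ((((lvw n S₀.card g adj S₀ n).map Prod.fst).filter (alive n a adj S₀ (Y ^ 24))).map
        (ind adj)).sum := by
    unfold outA
    rw [plv_eq (fun S T hS hT h => alive_up hs hbip hh.sub S T hS hT h) (alive_self hK1)]
    congr 1
    refine List.map_congr_left fun S hS => ?_
    rw [List.mem_filter, List.mem_map] at hS
    obtain ⟨⟨x, hx, rfl⟩, hal⟩ := hS
    have hsub := lvw_sub n x hx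
    refine leaf_small hs hl (hsub.trans hh.sub) ?_
    exact (alive_leafR hs hl p hp hbip hh hK1 hsub (lvw_light hh.sub x hx) hal).trans hK'
  have h2 := sum_filter_not ((lvw n S₀.card g adj S₀ n).map Prod.fst)
    (alive n a adj S₀ (Y ^ 24)) (ind adj)
  rw [sum_ind_lvw hs hl hh.sub, ← h1] at h2
  have h3 := dead_weightR hs hl p hp hbip hh hY1
  set W := 2 ^ (3 * H + 5 * g) with hW
  set X := ((((lvw n S₀.card g adj S₀ n).map Prod.fst).filter
        (fun S => !alive n a adj S₀ (Y ^ 24) S)).map (ind adj)).sum with hX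
  have h4 : t * X ≤ ind adj S₀ := by
    have h5 : t * W * X ≤ Y * X := Nat.mul_le_mul_right _ hY
    have h6 : W * (t * X) ≤ W * ind adj S₀ := by
      calc W * (t * X) = t * W * X := by ring
        _ ≤ Y * X := h5
        _ ≤ W * ind adj S₀ := h3
    exact Nat.le_of_mul_le_mul_left h6 (by positivity)
  constructor
  · omega
  · rw [← h2, Nat.mul_add]
    rw [h2]
    omega

end Pool.Agent.Lib.Pa7c826r
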