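import Pool.Agent.Lib.Pa7c826r.FacHall

/-!
Bipartite graphs in which the sum of the minimum degrees of the two sides is at least the size of
the smaller side, up to `r`, contain an almost regular spanning subgraph.

PROOF. Let `a ≤ b` be the sizes of the sides, all degrees at least `δ` (left) and `δ'` (right),
`a ≤ δ + δ' + r`, and `3 D ≤ min δ δ'`. Between `x` vertices on the left and `b - y` vertices on the
right there are at least `x (δ - y)` and at least `(b - y) (δ' + x - a)` edges; so there are at
least `D x - (D + r) y` edges (`dirac_arith`), and `exists_fac` applies.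
-/

namespace Pool.Agent.Lib.Pa7c826r

open Finset

theorem dirac_arith {a b δ δ' r D x y e : ℤ} (hab : a ≤ b) (hD : 0 ≤ D) (hδ : 3 * D ≤ δ)
    (hδ' : 3 * D ≤ δ') (hδb : δ ≤ b) (hr : 0 ≤ r) (har : a ≤ δ + δ' + r) (hxa : x ≤ a)
    (hy : 0 ≤ y) (he : 0 ≤ e) (h1 : x * (δ - y) ≤ e)
    (h2 : (b - y) * (δ' + x - a) ≤ e) (hyb : y ≤ b) : D * x ≤ e + (D + r) * y := by
  have hry : 0 ≤ r * y := mul_nonneg hr hy
  -- the trivial case
  rcases le_or_gt x y with hxy | hxy
  · have h3 : D * x ≤ D * y := mul_le_mul_of_nonneg_left hxy hD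
    linarith [mul_comm r y]
  rcases le_or_gt y (δ - D) with hyD | hyD
  · have hx0 : 0 ≤ x := hy.trans hxy.le
    have h3 : x * D ≤ x * (δ - y) := mul_le_mul_of_nonneg_left (by linarith) hx0
    have h4 : 0 ≤ D * y := mul_nonneg hD hy
    nlinarith
  have hDy : 2 * D ≤ y := by linarith
  have hrD : r * D ≤ r * y := mul_le_mul_of_nonneg_left (by linarith) hr
  -- it suffices to bound `D (x - y - r)`
  have key : D * (x - y - r) ≤ e → D * x ≤ e + (D + r) * y := by
    intro h
    have : D * (x - y - r) = D * x - D * y - r * D := by ring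
    have h5 : (D + r) * y = D * y + r * y := by ring
    linarith
  apply key
  rcases le_or_gt (δ' + x) a with hw | hw
  · rcases le_or_gt δ y with hyδ | hyδ
    · have h3 : D * (x - y - r) ≤ D * 0 := mul_le_mul_of_nonneg_left (by linarith) hD
      linarith
    · have h3 : D * (x - y - r) ≤ D * (δ - y) := mul_le_mul_of_nonneg_left (by linarith) hD
      have h4 : D * (δ - y) ≤ x * (δ - y) :=
        mul_le_mul_of_nonneg_right (by linarith) (by linarith)
      linarith
  · rcases le_or_gt (b - y) (2 * D) with hby | hby
    · have h3 : D * (x - y - r) ≤ D * (b - y) :=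
        mul_le_mul_of_nonneg_left (by linarith) hD
      have h4 : (b - y) * D ≤ (b - y) * (δ' + x - a) :=
        mul_le_mul_of_nonneg_left (by linarith) (by linarith)
      linarith [mul_comm D (b - y)]
    · have h3 : D * (x - y - r) ≤ D * ((δ' + x - a) + (δ - y)) :=
        mul_le_mul_of_nonneg_left (by linarith) hD
      rcases le_or_gt (δ' + x - a) (δ - y) with hc | hc
      · have h4 : D * ((δ' + x - a) + (δ - y)) ≤ D * (2 * (δ - y)) :=
          mul_le_mul_of_nonneg_left (by linarith) hD
        have h5 : (2 * D) * (δ - y) ≤ x * (δ - y) :=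
          mul_le_mul_of_nonneg_right (by linarith) (by linarith)
        linarith [show D * (2 * (δ - y)) = (2 * D) * (δ - y) by ring]
      · have h4 : D * ((δ' + x - a) + (δ - y)) ≤ D * (2 * (δ' + x - a)) :=
          mul_le_mul_of_nonneg_left (by linarith) hD
        have h5 : (2 * D) * (δ' + x - a) ≤ (b - y) * (δ' + x - a) :=
          mul_le_mul_of_nonneg_right (by linarith) (by linarith)
        linarith [show D * (2 * (δ' + x - a)) = (2 * D) * (δ' + x - a) by ring]

variable {α β : Type*}

theorem eAB_row (E : α → β → Bool) (A : Finset α) (B : Finset β) :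
    eAB E A B = ∑ i ∈ A, (B.filter fun j => E i j = true).card := by
  unfold eAB
  rw [card_filter, sum_product]
  refine sum_congr rfl fun i _ => ?_
  rw [card_filter]

theorem eAB_col (E : α → β → Bool) (A : Finset α) (B : Finset β) :
    eAB E A B = ∑ j ∈ B, (A.filter fun i => E i j = true).card := by
  unfold eAB
  rw [card_filter, sum_product_right]
  refine sum_congr rfl fun i _ => ?_
  rw [card_filter]

variable [Fintype α] [Fintype β] [DecidableEq α] [DecidableEq β]

theorem eAB_ge_row (E : α → β → Bool) {δ : ℤ}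
    (h : ∀ i, δ ≤ ((univ.filter fun j => E i j = true).card : ℤ)) (A : Finset α) (B : Finset β) :
    (A.card : ℤ) * (δ - B.card) ≤ eAB E A Bᶜ := by
  rw [eAB_row, Nat.cast_sum, ← nsmul_eq_mul]
  apply card_nsmul_le_sum
  intro i _
  have h1 : (univ.filter fun j => E i j = true).card ≤
      (Bᶜ.filter fun j => E i j = true).card + B.card := by
    rw [← card_union_of_disjoint]
    · apply card_le_card
      intro j hj
      rw [mem_union, mem_filter, mem_compl]
      by_cases hjB : j ∈ B
      · exact Or.inr hjB
      · exact Or.inl ⟨hjB, (mem_filter.1 hj).2⟩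
    · exact disjoint_of_subset_left (filter_subset _ _) disjoint_compl_left
  have h2 := h i
  have h3 : ((univ.filter fun j => E i j = true).card : ℤ) ≤
      ((Bᶜ.filter fun j => E i j = true).card : ℤ) + B.card := by exact_mod_cast h1
  linarith

theorem eAB_ge_col (E : α → β → Bool) {δ : ℤ}
    (h : ∀ j, δ ≤ ((univ.filter fun i => E i j = true).card : ℤ)) (A : Finset α) (B : Finset β) :
    ((Fintype.card β : ℤ) - B.card) * (δ + A.card - Fintype.card α) ≤ eAB E A Bᶜ := by
  rw [eAB_col, Nat.cast_sum]
  have hc : (Bᶜ.card : ℤ) = (Fintype.card β : ℤ) - B.card := by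
    have := card_add_card_compl B
    omega
  rw [← hc, ← nsmul_eq_mul]
  apply card_nsmul_le_sum
  intro j _
  have h1 : (univ.filter fun i => E i j = true).card ≤
      (A.filter fun i => E i j = true).card + Aᶜ.card := by
    rw [← card_union_of_disjoint]
    · apply card_le_card
      intro i hi
      rw [mem_union, mem_filter, mem_compl]
      by_cases hiA : i ∈ A
      · exact Or.inl ⟨hiA, (mem_filter.1 hi).2⟩
      · exact Or.inr hiA
    · exact disjoint_of_subset_left (filter_subset _ _) disjoint_compl_right
  have h2 := h j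
  have h4 := card_add_card_compl A
  have h3 : ((univ.filter fun i => E i j = true).card : ℤ) ≤
      ((A.filter fun i => E i j = true).card : ℤ) + Aᶜ.card := by exact_mod_cast h1
  have h5 : (A.card : ℤ) + Aᶜ.card = Fintype.card α := by exact_mod_cast h4
  linarith

/-- Minimum degrees with sum at least the size of the smaller side, up to `r`. -/
theorem exists_fac_two (E : α → β → Bool) (hab : Fintype.card α ≤ Fintype.card β) (δ δ' r : ℕ)
    (hrow : ∀ i, δ ≤ (univ.filter fun j => E i j = true).card)
    (hcol : ∀ j, δ' ≤ (univ.filter fun i => E i j = true).card)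
    (hr : Fintype.card α ≤ δ + δ' + r) :
    ∃ (F : α → β → Bool) (q : ℕ), (∀ i j, F i j = true → E i j = true) ∧
      (∀ i, q ≤ (univ.filter fun j => F i j = true).card + (r + 1)) ∧
      (∀ j, (univ.filter fun i => F i j = true).card ≤ q) ∧ min δ δ' + r ≤ 3 * q := by
  set a := Fintype.card α with ha
  set D := min δ δ' / 3 with hD
  have hmin : 3 * D ≤ min δ δ' := Nat.mul_div_le _ _
  have hcut : ∀ (A : Finset α) (B : Finset β),
      D * A.card ≤ eAB E A Bᶜ + (D + r + 1) * B.card := by
    intro A B
    have h1 := eAB_ge_row E (δ := (δ : ℤ)) (fun i => by exact_mod_cast hrow i) A B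
    have h2 := eAB_ge_col E (δ := (δ' : ℤ)) (fun j => by exact_mod_cast hcol j) A B
    have hA : A.card ≤ a := card_le_univ A
    have hB : B.card ≤ Fintype.card β := card_le_univ B
    rcases Nat.eq_zero_or_pos A.card with h0 | h0
    · rw [h0, mul_zero]
      exact Nat.zero_le _
    have hδb : δ ≤ Fintype.card β := by
      obtain ⟨i, _⟩ := card_pos.1 h0
      exact (hrow i).trans (card_le_univ _)
    have h3 := dirac_arith (a := a) (b := Fintype.card β) (δ := δ) (δ' := δ') (r := r) (D := D)
      (x := A.card) (y := B.card) (e := eAB E A Bᶜ) (by exact_mod_cast hab) (by omega) (by omega)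
      (by omega) (by exact_mod_cast hδb) (by omega) (by exact_mod_cast hr) (by exact_mod_cast hA)
      (by omega) (by omega) h1 h2 (by exact_mod_cast hB)
    have h4 : (D * A.card : ℤ) ≤ eAB E A Bᶜ + (D + r) * B.card := h3
    have h5 : D * A.card ≤ eAB E A Bᶜ + (D + r) * B.card := by exact_mod_cast h4
    refine h5.trans (Nat.add_le_add_left (Nat.mul_le_mul_right _ (by omega)) _)
  obtain ⟨F, hF, hr1, hc1⟩ := exists_fac E hcut
  refine ⟨F, D + r + 1, hF, fun i => ?_, hc1, by omega⟩
  have := hr1 i
  omega

end Pool.Agent.Lib.Pa7c826r
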