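import Pool.Agent.Lib.Pa7c826r.EasyR
import Pool.Agent.Lib.Pa7c826r.DiracFac
import Pool.Agent.Lib.Pa7c826t.FMono

/-!
Classes of bipartite graphs with an almost regular spanning subgraph.
-/

namespace Pool.Agent.Lib.Pa7c826r

open Pool.Agent.Lib.Pa7c826 Finset

/-- number of non-isolated left vertices -/
def coreL (G : BGraph) : ℕ := (univ.filter fun i => 0 < G.rowDeg i).card

/-- number of non-isolated right vertices -/
def coreR (G : BGraph) : ℕ := (univ.filter fun j => 0 < G.colDeg j).card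

/-- Bipartite graphs `G` with `N` vertices, `n` of them not isolated, such that for some `q`, `s`
with `n (1 + s) ≤ C q log₂ N` there is a subgraph `F` of `G` in which the degrees of all
non-isolated vertices of `G` on one side are at least `q - s`, and all degrees on the other side are
at most `q`. -/
def AlmostRegularFactor (C : ℕ) (G : BGraph) : Prop :=
  ∃ (F : Fin G.a → Fin G.b → Bool) (q s : ℕ), (∀ i j, F i j = true → G.E i j = true) ∧
    (coreL G + coreR G) * (1 + s) ≤ C * q * Nat.log 2 (G.a + G.b) ∧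
    (((∀ i, G.rowDeg i = 0 ∨ q ≤ (BGraph.mk G.a G.b F).rowDeg i + s) ∧
        ∀ j, (BGraph.mk G.a G.b F).colDeg j ≤ q) ∨
      ((∀ j, G.colDeg j = 0 ∨ q ≤ (BGraph.mk G.a G.b F).colDeg j + s) ∧
        ∀ i, (BGraph.mk G.a G.b F).rowDeg i ≤ q))

/-- Bipartite graphs `G` with `N` vertices, `n` of them not isolated, which for some `d` with
`n ≤ C d log₂ N` have a subgraph in which all non-isolated vertices of `G` have degree `d`. -/
def RegularFactor (C : ℕ) (G : BGraph) : Prop :=
  ∃ (F : Fin G.a → Fin G.b → Bool) (d : ℕ), (∀ i j, F i j = true → G.E i j = true) ∧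
    coreL G + coreR G ≤ C * d * Nat.log 2 (G.a + G.b) ∧
    (∀ i, G.rowDeg i = 0 ∨ (BGraph.mk G.a G.b F).rowDeg i = d) ∧
    ∀ j, G.colDeg j = 0 ∨ (BGraph.mk G.a G.b F).colDeg j = d

/-- Bipartite graphs with `N` vertices such that for some `δ`, `δ'`, `r` the non-isolated vertices on
the left have degree at least `δ`, those on the right have degree at least `δ'`, the smaller of the
numbers `x`, `y` of non-isolated vertices on the two sides is at most `δ + δ' + r`, and
`(x + y) (1 + r) ≤ C (min δ δ' + r) log₂ N`. -/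
def MinDegrees (C : ℕ) (G : BGraph) : Prop :=
  ∃ δ δ' r : ℕ, (∀ i, G.rowDeg i = 0 ∨ δ ≤ G.rowDeg i) ∧ (∀ j, G.colDeg j = 0 ∨ δ' ≤ G.colDeg j) ∧
    min (coreL G) (coreR G) ≤ δ + δ' + r ∧
    (coreL G + coreR G) * (1 + r) ≤ C * (min δ δ' + r) * Nat.log 2 (G.a + G.b)

theorem almostRegularFactor_easy (C : ℕ) : HasFPTAS (AlmostRegularFactor C) := by
  refine HasFPTASOn.mono (C := fun G _ => AlmostRegularFactor C G) (C' := HasFactor C) ?_ (easyR C)
  rintro G t _ ⟨F, q, s, hF, h1, h2⟩
  refine ⟨F, q, s, hF, h1.trans ?_, h2⟩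
  exact Nat.mul_le_mul_left _ (Nat.log_mono_right (by omega))

theorem rowDeg_fac (G : BGraph) (F : Fin G.a → Fin G.b → Bool)
    (hF : ∀ i j, F i j = true → G.E i j = true) (i : Fin G.a) :
    (BGraph.mk G.a G.b F).rowDeg i ≤ G.rowDeg i :=
  card_le_card fun j hj => mem_filter.2 ⟨mem_univ _, hF i j (mem_filter.1 hj).2⟩

theorem colDeg_fac (G : BGraph) (F : Fin G.a → Fin G.b → Bool)
    (hF : ∀ i j, F i j = true → G.E i j = true) (j : Fin G.b) :
    (BGraph.mk G.a G.b F).colDeg j ≤ G.colDeg j :=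
  card_le_card fun i hi => mem_filter.2 ⟨mem_univ _, hF i j (mem_filter.1 hi).2⟩

theorem regularFactor_easy (C : ℕ) : HasFPTAS (RegularFactor C) := by
  refine Pa7c826t.HasFPTAS.mono ?_ (almostRegularFactor_easy C)
  rintro G ⟨F, d, hF, h1, h2, h3⟩
  refine ⟨F, d, 0, hF, by simpa using h1, Or.inl ⟨fun i => ?_, fun j => ?_⟩⟩
  · rcases h2 i with h | h
    · exact Or.inl h
    · exact Or.inr h.ge
  · rcases h3 j with h | h
    · have := colDeg_fac G F hF j
      omega
    · exact h.le

/-- restricting a filter to a subtype -/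
theorem card_core {n : ℕ} (P Q : Fin n → Prop) [DecidablePred P] [DecidablePred Q]
    (h : ∀ j, Q j → P j) :
    (univ.filter fun j : {j // P j} => Q j.1).card = (univ.filter fun j => Q j).card := by
  rw [← card_map (Function.Embedding.subtype P)]
  congr 1
  ext j
  simp only [mem_map, mem_filter, mem_univ, true_and, Function.Embedding.subtype_apply,
    Subtype.exists, exists_and_right, exists_eq_right]
  constructor
  · rintro ⟨_, h2⟩; exact h2
  · intro h2; exact ⟨h j h2, h2⟩

/-- the factor of the core, extended to the whole graph -/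
def extF (G : BGraph) (F : {i // 0 < G.rowDeg i} → {j // 0 < G.colDeg j} → Bool)
    (i : Fin G.a) (j : Fin G.b) : Bool :=
  if h : 0 < G.rowDeg i ∧ 0 < G.colDeg j then F ⟨i, h.1⟩ ⟨j, h.2⟩ else false

theorem extF_core (G : BGraph) (F : {i // 0 < G.rowDeg i} → {j // 0 < G.colDeg j} → Bool)
    (i : {i // 0 < G.rowDeg i}) (j : {j // 0 < G.colDeg j}) : extF G F i.1 j.1 = F i j := by
  unfold extF
  rw [dif_pos ⟨i.2, j.2⟩]

theorem extF_row (G : BGraph) (F : {i // 0 < G.rowDeg i} → {j // 0 < G.colDeg j} → Bool)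
    (i : {i // 0 < G.rowDeg i}) :
    (BGraph.mk G.a G.b (extF G F)).rowDeg i.1 = (univ.filter fun j => F i j = true).card := by
  unfold BGraph.rowDeg
  rw [← card_core (fun j => 0 < G.colDeg j) (fun j => extF G F i.1 j = true) (by
    intro j hj
    unfold extF at hj
    split_ifs at hj with h
    · exact h.2)]
  simp only [extF_core]

theorem extF_col (G : BGraph) (F : {i // 0 < G.rowDeg i} → {j // 0 < G.colDeg j} → Bool)
    (j : {j // 0 < G.colDeg j}) :
    (BGraph.mk G.a G.b (extF G F)).colDeg j.1 = (univ.filter fun i => F i j = true).card := by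
  unfold BGraph.colDeg
  rw [← card_core (fun i => 0 < G.rowDeg i) (fun i => extF G F i j.1 = true) (by
    intro i hi
    unfold extF at hi
    split_ifs at hi with h
    · exact h.1)]
  simp only [extF_core]

theorem extF_col_zero (G : BGraph) (F : {i // 0 < G.rowDeg i} → {j // 0 < G.colDeg j} → Bool)
    (j : Fin G.b) (h : ¬ 0 < G.colDeg j) : (BGraph.mk G.a G.b (extF G F)).colDeg j = 0 := by
  unfold BGraph.colDeg
  rw [card_eq_zero, filter_eq_empty_iff]
  intro i _ hi
  simp only at hi
  unfold extF at hi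
  split_ifs at hi with h'
  exact h h'.2

theorem extF_row_zero (G : BGraph) (F : {i // 0 < G.rowDeg i} → {j // 0 < G.colDeg j} → Bool)
    (i : Fin G.a) (h : ¬ 0 < G.rowDeg i) : (BGraph.mk G.a G.b (extF G F)).rowDeg i = 0 := by
  unfold BGraph.rowDeg
  rw [card_eq_zero, filter_eq_empty_iff]
  intro j _ hj
  simp only at hj
  unfold extF at hj
  split_ifs at hj with h'
  exact h h'.1

theorem core_row (G : BGraph) (i : {i // 0 < G.rowDeg i}) :
    (univ.filter fun j : {j // 0 < G.colDeg j} => G.E i.1 j.1 = true).card = G.rowDeg i.1 := by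
  unfold BGraph.rowDeg
  refine card_core (fun j => 0 < G.colDeg j) (fun j => G.E i.1 j = true) ?_
  intro j hj
  unfold BGraph.colDeg
  rw [card_pos]
  exact ⟨i.1, mem_filter.2 ⟨mem_univ _, hj⟩⟩

theorem core_col (G : BGraph) (j : {j // 0 < G.colDeg j}) :
    (univ.filter fun i : {i // 0 < G.rowDeg i} => G.E i.1 j.1 = true).card = G.colDeg j.1 := by
  unfold BGraph.colDeg
  refine card_core (fun i => 0 < G.rowDeg i) (fun i => G.E i j.1 = true) ?_
  intro i hi
  unfold BGraph.rowDeg
  rw [card_pos]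
  exact ⟨j.1, mem_filter.2 ⟨mem_univ _, hi⟩⟩

theorem minDegrees_factor {C : ℕ} {G : BGraph} (h : MinDegrees C G) :
    AlmostRegularFactor (6 * C) G := by
  obtain ⟨δ, δ', r, h1, h2, h3, h4⟩ := h
  have hα : Fintype.card {i // 0 < G.rowDeg i} = coreL G := Fintype.card_subtype _
  have hβ : Fintype.card {j // 0 < G.colDeg j} = coreR G := Fintype.card_subtype _
  have hcount : ∀ q : ℕ, min δ δ' + r ≤ 3 * q → (coreL G + coreR G) * (1 + (r + 1)) ≤
      6 * C * q * Nat.log 2 (G.a + G.b) := by
    intro q hq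
    calc (coreL G + coreR G) * (1 + (r + 1)) ≤ 2 * ((coreL G + coreR G) * (1 + r)) := by
          nlinarith [Nat.zero_le ((coreL G + coreR G) * r)]
      _ ≤ 2 * (C * (min δ δ' + r) * Nat.log 2 (G.a + G.b)) := Nat.mul_le_mul_left _ h4
      _ ≤ 2 * (C * (3 * q) * Nat.log 2 (G.a + G.b)) := by gcongr
      _ = 6 * C * q * Nat.log 2 (G.a + G.b) := by ring
  rcases le_total (coreL G) (coreR G) with hc | hc
  · obtain ⟨F, q, hF, hr, hcc, hq⟩ := exists_fac_two
      (fun (i : {i // 0 < G.rowDeg i}) (j : {j // 0 < G.colDeg j}) => G.E i.1 j.1)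
      (by rw [hα, hβ]; exact hc) δ δ' r
      (fun i => by rw [core_row]; exact (h1 i.1).resolve_left i.2.ne')
      (fun j => by rw [core_col]; exact (h2 j.1).resolve_left j.2.ne')
      (by rw [hα]; rw [min_eq_left hc] at h3; exact h3)
    refine ⟨extF G F, q, r + 1, ?_, hcount q hq, Or.inl ⟨fun i => ?_, fun j => ?_⟩⟩
    · intro i j h
      unfold extF at h
      split_ifs at h
      exact hF _ _ h
    · by_cases hi : 0 < G.rowDeg i
      · exact Or.inr (by rw [extF_row G F ⟨i, hi⟩]; exact hr ⟨i, hi⟩)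
      · exact Or.inl (by omega)
    · by_cases hj : 0 < G.colDeg j
      · rw [extF_col G F ⟨j, hj⟩]; exact hcc ⟨j, hj⟩
      · rw [extF_col_zero G F j hj]; exact Nat.zero_le _
  · obtain ⟨F, q, hF, hr, hcc, hq⟩ := exists_fac_two
      (fun (j : {j // 0 < G.colDeg j}) (i : {i // 0 < G.rowDeg i}) => G.E i.1 j.1)
      (by rw [hα, hβ]; exact hc) δ' δ r
      (fun j => by rw [core_col]; exact (h2 j.1).resolve_left j.2.ne')
      (fun i => by rw [core_row]; exact (h1 i.1).resolve_left i.2.ne')
      (by rw [hβ]; rw [min_eq_right hc] at h3; omega)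
    refine ⟨extF G (fun i j => F j i), q, r + 1, ?_, hcount q (by rw [min_comm] at hq; exact hq),
      Or.inr ⟨fun j => ?_, fun i => ?_⟩⟩
    · intro i j h
      unfold extF at h
      split_ifs at h
      exact hF _ _ h
    · by_cases hj : 0 < G.colDeg j
      · exact Or.inr (by rw [extF_col G _ ⟨j, hj⟩]; exact hr ⟨j, hj⟩)
      · exact Or.inl (by omega)
    · by_cases hi : 0 < G.rowDeg i
      · rw [extF_row G _ ⟨i, hi⟩]; exact hcc ⟨i, hi⟩
      · rw [extF_row_zero G _ i hi]; exact Nat.zero_le _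

theorem minDegrees_easy (C : ℕ) : HasFPTAS (MinDegrees C) :=
  Pa7c826t.HasFPTAS.mono (fun _ h => minDegrees_factor h) (almostRegularFactor_easy (6 * C))

end Pool.Agent.Lib.Pa7c826r
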