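import Pool.Agent.Lib.Pa7c826r.RedLR
import Pool.Agent.Lib.Pa7c826r.CorR

/-!
Balanced bipartite graphs with large minimum degrees on both sides: the threshold for the sum of the
two minimum degrees.
-/

namespace Pool.Agent.Lib.Pa7c826r

open Filter Pool.Agent.Lib.PolyTime Pool.Agent.Lib.Pa7c826 Pool.Agent.Lib.Pa7c826y
  Pool.Agent.Lib.Pa7c826z Pool.Agent.Lib.Pa7c826w

open FinalAux

/-- Balanced bipartite graphs with `N` vertices per side, all left degrees at least `x N - w N` and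
all right degrees at least `y N - w N`. -/
def MinDegree (x y : ℝ) (w : ℕ → ℝ) (G : BGraph) : Prop :=
  G.a = G.b ∧ (∀ i, x * G.a - w G.a ≤ G.rowDeg i) ∧ ∀ j, y * G.a - w G.a ≤ G.colDeg j

/-! ### Hardness -/

theorem p5_big (G : BGraph) (t k n0 : ℕ) : G.a + G.b + 2 * t + 4 + n0 ≤ p5 k n0 G t := by
  unfold p5
  exact Nat.le_self_pow (Nat.succ_ne_zero k) _

/-- the members of the class -/
theorem red6_mem {P Q k n0 : ℕ} {w : ℕ → ℝ} {x y : ℝ} {G : BGraph} {t : ℕ}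
    (h1 : x * N6 P Q k n0 G t - w (N6 P Q k n0 G t) ≤ P * p5 k n0 G t)
    (h2 : y * N6 P Q k n0 G t - w (N6 P Q k n0 G t) ≤ Q * p5 k n0 G t) :
    MinDegree x y w (red6 P Q k n0 G t) := by
  refine ⟨(red6_a P Q k n0 G t).trans (red6_b P Q k n0 G t).symm, fun i => ?_, fun j => ?_⟩
  · rw [red6_a]
    refine h1.trans ?_
    exact_mod_cast red6_row P Q k n0 G t i
  · rw [red6_a]
    refine h2.trans ?_
    exact_mod_cast red6_col P Q k n0 G t j

theorem s6_real (G : BGraph) {t : ℕ} (ht : 1 ≤ t) :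
    (s6 G t : ℝ) ≤ supp G + 3 * Real.logb 2 (2 * t + 4) := by
  have ht1 : (1 : ℝ) ≤ t := by exact_mod_cast ht
  have h1 : (Nat.log 2 (2 * t + 1) : ℝ) ≤ Real.logb 2 (2 * t + 1) := by
    have := Real.natLog_le_logb (2 * t + 1) 2
    push_cast at this
    exact this
  have h2 : Real.logb 2 (2 * t + 1) ≤ Real.logb 2 (2 * t + 4) :=
    Real.logb_le_logb_of_le (by norm_num) (by positivity) (by linarith)
  have h3 : (2 : ℝ) ≤ Real.logb 2 (2 * t + 4) := by
    rw [Real.le_logb_iff_rpow_le (by norm_num) (by positivity)]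
    norm_num
  unfold s6
  push_cast
  linarith

theorem hard_LR {P Q : ℕ} (hP : 0 < P) (hQ : 0 < Q) {w : ℕ → ℝ} (hw : Monotone w)
    (hlog : ∀ᶠ N : ℕ in atTop, Real.logb 2 N ≤ w N) :
    (HasFPRAS (MinDegree (P / (P + Q)) (Q / (P + Q)) w) →
      HasFPRAS (SmallCore (fun M => w M / 2))) ∧
    (HasFPTAS (MinDegree (P / (P + Q)) (Q / (P + Q)) w) →
      HasFPTAS (SmallCore (fun M => w M / 2))) := by
  obtain ⟨n0, hn0⟩ := eventually_atTop.1 hlog
  refine transfer6 6 n0 hP hQ ?_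
  intro G t hG ht
  have hPr : (0 : ℝ) < P := by exact_mod_cast hP
  have hQr : (0 : ℝ) < Q := by exact_mod_cast hQ
  have hbig := p5_big G t 6 n0
  have hpN : p5 6 n0 G t ≤ N6 P Q 6 n0 G t := by
    unfold N6
    refine le_trans ?_ (Nat.le_add_right _ _)
    exact Nat.le_mul_of_pos_left _ (by omega)
  have hN : (N6 P Q 6 n0 G t : ℝ) = (P + Q) * p5 6 n0 G t + s6 G t := by
    unfold N6
    push_cast
    ring
  have hs : (s6 G t : ℝ) ≤ w (N6 P Q 6 n0 G t) := by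
    have h1 := s6_real G ht
    have h2 : (supp G : ℝ) ≤ w (N6 P Q 6 n0 G t) / 2 := by
      have e1 : (supp G : ℝ) ≤ w (G.a + G.b) / 2 := hG
      have e2 : w (G.a + G.b) ≤ w (N6 P Q 6 n0 G t) := hw (by omega)
      linarith
    have h3 : 3 * Real.logb 2 (2 * t + 4) ≤ w (N6 P Q 6 n0 G t) / 2 := by
      have e1 := hn0 (N6 P Q 6 n0 G t) (by omega)
      have e2 : Real.logb 2 ((2 * t + 4 : ℝ) ^ 6) ≤ Real.logb 2 (N6 P Q 6 n0 G t : ℝ) := by
        apply Real.logb_le_logb_of_le (by norm_num) (by positivity)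
        have e3 : (2 * t + 4) ^ 6 ≤ p5 6 n0 G t := by
          unfold p5
          calc (2 * t + 4) ^ 6 ≤ (G.a + G.b + 2 * t + 4 + n0) ^ 6 :=
                Nat.pow_le_pow_left (by omega) _
            _ ≤ _ := Nat.pow_le_pow_right (by omega) (by omega)
        exact_mod_cast e3.trans hpN
      rw [Real.logb_pow] at e2
      push_cast at e2
      linarith
    linarith
  have hx : ∀ z : ℝ, 0 ≤ z → z ≤ P + Q →
      z / (P + Q) * N6 P Q 6 n0 G t - w (N6 P Q 6 n0 G t) ≤ z * p5 6 n0 G t := by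
    intro z hz0 hz1
    rw [hN]
    have e1 : z / (P + Q) * ((P + Q) * p5 6 n0 G t + s6 G t) =
        z * p5 6 n0 G t + z / (P + Q) * s6 G t := by
      field_simp
    have e2 : z / (P + Q) * (s6 G t : ℝ) ≤ 1 * s6 G t :=
      mul_le_mul_of_nonneg_right ((div_le_one (by linarith)).2 hz1) (Nat.cast_nonneg _)
    rw [← hN, ← hN] at *
    rw [hN] at e1
    rw [hN]
    linarith [hs]
  exact red6_mem (hx P hPr.le (by linarith)) (hx Q hQr.le (by linarith))

theorem rpow_ge_logb {ε : ℝ} (hε : 0 < ε) :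
    ∀ᶠ N : ℕ in atTop, Real.logb 2 N ≤ (N : ℝ) ^ ε := by
  have h3 := isLittleO_log_rpow_atTop hε
  have h4 := (h3.def (show (0 : ℝ) < Real.log 2 by positivity))
  have h5 := tendsto_natCast_atTop_atTop (R := ℝ) |>.eventually h4
  filter_upwards [h5, eventually_ge_atTop 1] with N hN hN1
  have h6 : (1 : ℝ) ≤ N := by exact_mod_cast hN1
  rw [Real.norm_of_nonneg (Real.log_nonneg h6), Real.norm_of_nonneg (by positivity)] at hN
  rw [Real.logb, div_le_iff₀ (Real.log_pos (by norm_num))]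
  linarith

theorem hard_LR_rpow {P Q : ℕ} (hP : 0 < P) (hQ : 0 < Q) {ε : ℝ} (hε : 0 < ε) :
    (HasFPRAS (MinDegree (P / (P + Q)) (Q / (P + Q)) (fun N => (N : ℝ) ^ ε)) →
      HasFPRAS (fun _ => True)) ∧
    (HasFPTAS (MinDegree (P / (P + Q)) (Q / (P + Q)) (fun N => (N : ℝ) ^ ε)) →
      HasFPTAS (fun _ => True)) := by
  have hm : Monotone (fun N : ℕ => (N : ℝ) ^ ε) := fun a b hab =>
    Real.rpow_le_rpow (Nat.cast_nonneg _) (by exact_mod_cast hab) hε.le
  obtain ⟨h1, h2⟩ := hard_LR hP hQ hm (rpow_ge_logb hε)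
  obtain ⟨k, hk⟩ := rpow_core (show (0 : ℝ) < 1 / 2 by norm_num) hε
  have hv0 : ∀ M : ℕ, (0 : ℝ) ≤ (M : ℝ) ^ ε / 2 := fun M => by positivity
  have hv : ∀ M : ℕ, 2 ≤ M → (M : ℝ) ≤ ((M + M ^ k : ℕ) : ℝ) ^ ε / 2 := by
    intro M hM
    have := hk M hM
    linarith
  exact ⟨fun h => core_hard (k := k) hv0 hv (h1 h), fun h => core_hardD (k := k) hv0 hv (h2 h)⟩

/-- below the threshold -/
theorem hard_LR_below {x y : ℝ} (hx : 0 < x) (hy : 0 < y) (hxy : x + y < 1) :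
    (HasFPRAS (MinDegree x y (fun _ => 0)) → HasFPRAS (fun _ => True)) ∧
    (HasFPTAS (MinDegree x y (fun _ => 0)) → HasFPTAS (fun _ => True)) := by
  obtain ⟨q, hq1, hq2⟩ := exists_rat_btwn (show x < 1 - y by linarith)
  have hq0 : (0 : ℝ) < q := hx.trans hq1
  have hq0' : 0 < q := by exact_mod_cast hq0
  have hq1' : q < 1 := by
    have : (q : ℝ) < 1 := by linarith
    exact_mod_cast this
  have hn : 0 < q.num := Rat.num_pos.2 hq0'
  obtain ⟨P, hP⟩ : ∃ P : ℕ, (P : ℤ) = q.num := ⟨q.num.toNat, Int.toNat_of_nonneg hn.le⟩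
  have hP0 : 0 < P := by omega
  have hden : (q : ℝ) * q.den = P := by
    have h1 : q * q.den = q.num := Rat.mul_den_eq_num q
    have h2 : (q : ℝ) * q.den = (q.num : ℝ) := by exact_mod_cast h1
    rw [h2, ← hP]
    norm_cast
  have hdpos : (0 : ℝ) < q.den := by exact_mod_cast q.den_pos
  have hPd : (P : ℝ) < q.den := by
    rw [← hden]
    have : (q : ℝ) < 1 := by linarith
    nlinarith
  have hPd' : P < q.den := by exact_mod_cast hPd
  obtain ⟨Q, hQ⟩ := Nat.exists_eq_add_of_lt hPd'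
  have hQ0 : 0 < Q + 1 := by omega
  have hQr : ((Q + 1 : ℕ) : ℝ) = q.den - P := by
    rw [hQ]
    push_cast
    ring
  obtain ⟨n0, hn0⟩ := exists_nat_gt (max (1 / (q - x)) (1 / (1 - y - q)))
  have hδ1 : 0 < (q : ℝ) - x := by linarith
  have hδ2 : 0 < 1 - y - (q : ℝ) := by linarith
  have hn1 : 1 ≤ (q - x) * n0 := by
    have := (le_max_left _ _).trans hn0.le
    rwa [div_le_iff₀ hδ1, mul_comm] at this
  have hn2 : 1 ≤ (1 - y - q) * n0 := by
    have := (le_max_right _ _).trans hn0.le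
    rwa [div_le_iff₀ hδ2, mul_comm] at this
  refine transfer6 1 n0 hP0 hQ0 ?_
  intro G t _ _
  have hden1 : (1 : ℝ) ≤ q.den := by exact_mod_cast q.den_pos
  have hp : s6 G t * n0 ≤ p5 1 n0 G t := by
    have h1 : s6 G t ≤ G.a + G.b + 2 * t + 4 + n0 := by
      have h2 := supp_le G
      have h3 : Nat.log 2 (2 * t + 1) ≤ 2 * t := by
        have := Nat.log_lt_self 2 (show 2 * t + 1 ≠ 0 by omega)
        omega
      unfold s6
      omega
    unfold p5
    rw [show 1 + 1 = 2 from rfl, pow_two]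
    exact Nat.mul_le_mul h1 (by omega)
  have hpr : (s6 G t : ℝ) * n0 ≤ p5 1 n0 G t := by exact_mod_cast hp
  have hs0 : (0 : ℝ) ≤ s6 G t := Nat.cast_nonneg _
  have hp0 : (0 : ℝ) ≤ p5 1 n0 G t := Nat.cast_nonneg _
  have hN : (N6 P (Q + 1) 1 n0 G t : ℝ) = q.den * p5 1 n0 G t + s6 G t := by
    unfold N6
    push_cast
    push_cast at hQr
    have : (P : ℝ) + (Q + 1) = q.den := by linarith
    rw [this]
  -- `z s ≤ δ den p` for `z ≤ 1`
  have key : ∀ z δ : ℝ, 0 ≤ z → z ≤ 1 → 1 ≤ δ * n0 → 0 < δ →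
      z * s6 G t ≤ δ * (q.den * p5 1 n0 G t) := by
    intro z δ hz0 hz1 h1 hδ
    calc z * (s6 G t : ℝ) ≤ 1 * s6 G t := mul_le_mul_of_nonneg_right hz1 hs0
      _ ≤ (δ * n0) * s6 G t := mul_le_mul_of_nonneg_right h1 hs0
      _ = δ * (s6 G t * n0) := by ring
      _ ≤ δ * p5 1 n0 G t := mul_le_mul_of_nonneg_left hpr hδ.le
      _ ≤ δ * (q.den * p5 1 n0 G t) :=
          mul_le_mul_of_nonneg_left (le_mul_of_one_le_left hp0 hden1) hδ.le
  refine red6_mem ?_ ?_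
  · rw [hN]
    have h1 := key x (q - x) hx.le (by linarith) hn1 hδ1
    rw [← hden]
    nlinarith
  · rw [hN]
    have h1 := key y (1 - y - q) hy.le (by linarith) hn2 hδ2
    have h2 : ((Q + 1 : ℕ) : ℝ) = (1 - q) * q.den := by
      rw [hQr, ← hden]
      ring
    rw [h2]
    nlinarith

/-! ### The algorithm -/

/-- small graphs -/
theorem factor_small {C N1 : ℕ} (hC : 4 * N1 ≤ C) {G : BGraph} (hab : G.a = G.b) (h : G.a ≤ N1) :
    AlmostRegularFactor C G := by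
  refine ⟨fun _ _ => false, 1, 1, fun i j h => absurd h (by simp), ?_,
    Or.inl ⟨fun i => Or.inr (by omega), fun j => ?_⟩⟩
  · have h1 : coreL G ≤ G.a := (Finset.card_filter_le _ _).trans (by simp)
    have h2 : coreR G ≤ G.b := (Finset.card_filter_le _ _).trans (by simp)
    rcases Nat.eq_zero_or_pos G.a with h0 | h0
    · have h3 : coreL G + coreR G = 0 := by omega
      rw [h3, zero_mul]
      exact Nat.zero_le _
    · have h3 : 1 ≤ Nat.log 2 (G.a + G.b) := Nat.log_pos (by norm_num) (by omega)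
      calc (coreL G + coreR G) * (1 + 1) ≤ 4 * N1 := by omega
        _ ≤ C * 1 * 1 := by omega
        _ ≤ C * 1 * Nat.log 2 (G.a + G.b) := Nat.mul_le_mul_left _ h3
  · unfold BGraph.colDeg
    simp

theorem factor_mono {C C' : ℕ} (h : C ≤ C') {G : BGraph} (hG : AlmostRegularFactor C G) :
    AlmostRegularFactor C' G := by
  obtain ⟨F, q, s, hF, h1, h2⟩ := hG
  refine ⟨F, q, s, hF, h1.trans ?_, h2⟩
  gcongr

theorem easy_LR {x y : ℝ} (hx : 0 < x) (hy : 0 < y) (hxy : 1 ≤ x + y) (c : ℝ) :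
    HasFPTAS (MinDegree x y (fun N => c * Real.log N)) := by
  obtain ⟨c', hc'⟩ := log_window c
  set m : ℝ := min x y with hm
  have hm0 : 0 < m := lt_min hx hy
  obtain ⟨N1, hN1⟩ := eventually_atTop.1 ((hc'.and (log_small c (half_pos hm0))).and
    (eventually_ge_atTop 1))
  obtain ⟨C1, hC1⟩ := exists_nat_gt (4 * (1 + c') / m)
  refine Pa7c826t.HasFPTAS.mono (C' := AlmostRegularFactor (6 * C1 + 4 * N1)) ?_
    (almostRegularFactor_easy _)
  rintro G ⟨hab, hr, hcol⟩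
  rcases le_or_gt G.a N1 with hle | hgt
  · exact factor_small (by omega) hab hle
  obtain ⟨⟨hw, hsm⟩, hN0⟩ := hN1 G.a hgt.le
  set N := G.a with hNdef
  set wN : ℝ := c * Real.log N with hwN
  have hNr : (1 : ℝ) ≤ N := by exact_mod_cast hN0
  refine factor_mono (C := 6 * C1) (by omega) (minDegrees_factor ?_)
  have hδ : ∀ z : ℝ, m ≤ z → m / 2 * N ≤ ⌈z * N - wN⌉₊ := by
    intro z hz
    have h1 : z * N - wN ≤ ⌈z * N - wN⌉₊ := Nat.le_ceil _
    have h2 : m * N ≤ z * N := mul_le_mul_of_nonneg_right hz (by linarith)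
    linarith
  have hδx := hδ x (min_le_left _ _)
  have hδy := hδ y (min_le_right _ _)
  have hLog : Nat.log 2 (G.a + G.b) = Nat.log 2 (2 * N) := by
    rw [← hab, ← hNdef, two_mul]
  refine ⟨⌈x * N - wN⌉₊, ⌈y * N - wN⌉₊, c' * Nat.log 2 (2 * N), fun i => Or.inr ?_,
    fun j => Or.inr ?_, ?_, ?_⟩
  · exact Nat.ceil_le.2 (hr i)
  · exact Nat.ceil_le.2 (hcol j)
  · have h1 : coreL G ≤ N := (Finset.card_filter_le _ _).trans (by simp [hNdef])
    refine (min_le_left _ _).trans (h1.trans ?_)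
    have h2 : x * N - wN ≤ ⌈x * N - wN⌉₊ := Nat.le_ceil _
    have h3 : y * N - wN ≤ ⌈y * N - wN⌉₊ := Nat.le_ceil _
    have h4 : (N : ℝ) ≤ (x + y) * N := le_mul_of_one_le_left (by linarith) hxy
    have h5 : (N : ℝ) ≤ ((⌈x * N - wN⌉₊ + ⌈y * N - wN⌉₊ + c' * Nat.log 2 (2 * N) : ℕ) : ℝ) := by
      push_cast
      linarith
    exact_mod_cast h5
  · rw [hLog]
    have h1 : coreL G ≤ N := (Finset.card_filter_le _ _).trans (by simp [hNdef])
    have h2 : coreR G ≤ N := (Finset.card_filter_le _ _).trans (by rw [hab]; simp)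
    have hL1 : 1 ≤ Nat.log 2 (2 * N) := Nat.log_pos (by norm_num) (by omega)
    set l := Nat.log 2 (2 * N) with hl
    have hlr : (1 : ℝ) ≤ l := by exact_mod_cast hL1
    have h3 : (coreL G + coreR G) * (1 + c' * l) ≤ 2 * N * ((1 + c') * l) := by
      refine Nat.mul_le_mul (by omega) ?_
      nlinarith
    refine h3.trans ?_
    have h4 : (4 * (1 + c') : ℝ) ≤ C1 * m := by
      rw [div_lt_iff₀ hm0] at hC1
      exact hC1.le
    have hmin : m / 2 * N ≤ ((min ⌈x * N - wN⌉₊ ⌈y * N - wN⌉₊ : ℕ) : ℝ) := by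
      rw [Nat.cast_min]
      exact le_min hδx hδy
    have h5 : (2 * N * ((1 + c') * l) : ℝ) ≤
        C1 * ((min ⌈x * N - wN⌉₊ ⌈y * N - wN⌉₊ : ℕ) + c' * l) * l := by
      have e1 : (0 : ℝ) ≤ c' * l := by positivity
      have e2 : C1 * (m / 2 * N) * l ≤
          C1 * ((min ⌈x * N - wN⌉₊ ⌈y * N - wN⌉₊ : ℕ) + c' * l) * l := by
        gcongr
        linarith
      refine le_trans ?_ e2
      have e3 : (2 * N * ((1 + c') * l) : ℝ) = (4 * (1 + c')) * (N * l / 2) := by ring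
      have e4 : (C1 * (m / 2 * N) * l : ℝ) = (C1 * m) * (N * l / 2) := by ring
      rw [e3, e4]
      exact mul_le_mul_of_nonneg_right h4 (by positivity)
    exact_mod_cast h5

/-- the threshold for rational ratios -/
theorem hard_LR_rat (x : ℚ) (h0 : 0 < x) (h1 : x < 1) :
    (∀ w : ℕ → ℝ, Monotone w → (∀ᶠ N : ℕ in atTop, Real.logb 2 N ≤ w N) →
      (HasFPRAS (MinDegree x (1 - x) w) → HasFPRAS (SmallCore (fun M => w M / 2))) ∧
      (HasFPTAS (MinDegree x (1 - x) w) → HasFPTAS (SmallCore (fun M => w M / 2)))) ∧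
    ∀ ε : ℝ, 0 < ε →
      (HasFPRAS (MinDegree x (1 - x) (fun N => (N : ℝ) ^ ε)) → HasFPRAS (fun _ => True)) ∧
      (HasFPTAS (MinDegree x (1 - x) (fun N => (N : ℝ) ^ ε)) → HasFPTAS (fun _ => True)) := by
  have hn : 0 < x.num := Rat.num_pos.2 h0
  obtain ⟨P, hP⟩ : ∃ P : ℕ, (P : ℤ) = x.num := ⟨x.num.toNat, Int.toNat_of_nonneg hn.le⟩
  have hP0 : 0 < P := by omega
  have hden : (x : ℝ) * x.den = P := by
    have h1 : x * x.den = x.num := Rat.mul_den_eq_num x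
    have h2 : (x : ℝ) * x.den = (x.num : ℝ) := by exact_mod_cast h1
    rw [h2, ← hP]
    norm_cast
  have hdpos : (0 : ℝ) < x.den := by exact_mod_cast x.den_pos
  have hx1 : (x : ℝ) < 1 := by exact_mod_cast h1
  have hPd : (P : ℝ) < x.den := by
    rw [← hden]
    nlinarith
  have hPd' : P < x.den := by exact_mod_cast hPd
  obtain ⟨Q, hQ⟩ := Nat.exists_eq_add_of_lt hPd'
  have hsum : ((P : ℕ) : ℝ) + ((Q + 1 : ℕ) : ℝ) = x.den := by
    rw [hQ]
    push_cast
    ring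
  have e1 : (x : ℝ) = (P : ℝ) / (P + ((Q + 1 : ℕ) : ℝ)) := by
    rw [hsum, eq_div_iff hdpos.ne', hden]
  have e2 : (1 - x : ℝ) = ((Q + 1 : ℕ) : ℝ) / (P + ((Q + 1 : ℕ) : ℝ)) := by
    rw [hsum, eq_div_iff hdpos.ne', sub_mul, hden, one_mul, ← hsum]
    ring
  refine ⟨fun w hw hl => ?_, fun ε hε => ?_⟩
  · rw [e2, e1]
    exact hard_LR hP0 (Nat.succ_pos Q) hw hl
  · rw [e2, e1]
    exact hard_LR_rpow hP0 (Nat.succ_pos Q) hε

end Pool.Agent.Lib.Pa7c826r
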