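import Pool.Agent.Lib.Pa7c826r.AlgR
import Pool.Agent.Lib.Pa7c826r.ApproxR
import Pool.Agent.Lib.Pa7c826t.ClassT

/-!
Bipartite graphs that contain an almost regular spanning subgraph satisfy the host conditions.
-/

namespace Pool.Agent.Lib.Pa7c826r

open Pool.Agent.Lib.PolyTime Pool.Agent.Lib.Pa7c826 Finset
open Pool.Agent.Lib.Pa7c826t hiding gw Yw Kw algT upoly_gw upoly_Yw upoly_Kw upolyA_alive
  upolyF_leaf algT_poly

/-- Pairs of a bipartite graph `G` with `N` vertices, `n` of them not isolated, and a precision `t`,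
such that for some `q`, `s` with `n (1 + s) ≤ C q log₂ (N + t)` there is a subgraph `F` of `G` in
which the degrees of all non-isolated vertices of `G` on one side are at least `q - s`, and all
degrees on the other side are at most `q`. -/
def HasFactor (C : ℕ) (G : BGraph) (t : ℕ) : Prop :=
  ∃ (F : Fin G.a → Fin G.b → Bool) (q s : ℕ), (∀ i j, F i j = true → G.E i j = true) ∧
    numNonIso G * (1 + s) ≤ C * q * Nat.log 2 (G.a + G.b + t) ∧
    (((∀ i, G.rowDeg i = 0 ∨ q ≤ (BGraph.mk G.a G.b F).rowDeg i + s) ∧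
        ∀ j, (BGraph.mk G.a G.b F).colDeg j ≤ q) ∨
      ((∀ j, G.colDeg j = 0 ∨ q ≤ (BGraph.mk G.a G.b F).colDeg j + s) ∧
        ∀ i, (BGraph.mk G.a G.b F).rowDeg i ≤ q))

theorem fac_le (G : BGraph) (F : Fin G.a → Fin G.b → Bool)
    (hF : ∀ i j, F i j = true → G.E i j = true) (t : ℕ) (u v : ℕ)
    (h : adjOf (inCode (BGraph.mk G.a G.b F) t) u v = true) :
    adjOf (inCode G t) u v = true := by
  have h2 := adjOf_bip h
  rw [aOf_inCode, bOf_inCode] at h2
  dsimp only at h2
  rcases h2 with h2 | h2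
  · have h3 := adjOf_lr (BGraph.mk G.a G.b F) t (⟨u, h2.1⟩ : Fin G.a)
      (⟨v - G.a, by have := h2.2; omega⟩ : Fin G.b)
    have h4 := adjOf_lr G t ⟨u, h2.1⟩ ⟨v - G.a, by have := h2.2; omega⟩
    dsimp only at h3 h4
    rw [show G.a + (v - G.a) = v by have := h2.2; omega] at h3 h4
    rw [h3] at h
    rw [h4]
    exact hF _ _ h
  · have h3 := adjOf_lr (BGraph.mk G.a G.b F) t (⟨v, h2.1⟩ : Fin G.a)
      (⟨u - G.a, by have := h2.2; omega⟩ : Fin G.b)
    have h4 := adjOf_lr G t ⟨v, h2.1⟩ ⟨u - G.a, by have := h2.2; omega⟩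
    dsimp only at h3 h4
    rw [show G.a + (u - G.a) = u by have := h2.2; omega] at h3 h4
    rw [adjOf_symm, h3] at h
    rw [adjOf_symm, h4]
    exact hF _ _ h

/-- all neighbours in the subgraph are non-isolated vertices of the graph -/
theorem dg_fac_nonIso (G : BGraph) (F : Fin G.a → Fin G.b → Bool)
    (hF : ∀ i j, F i j = true → G.E i j = true) (t v : ℕ) :
    dg (adjOf (inCode (BGraph.mk G.a G.b F) t)) (nonIso (inCode G t)) v =
      dg (adjOf (inCode (BGraph.mk G.a G.b F) t)) (range (G.a + G.b)) v := by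
  unfold dg
  congr 1
  ext u
  rw [mem_filter, mem_filter, mem_range]
  constructor
  · rintro ⟨h1, h⟩
    exact ⟨(mem_nonIso.1 h1).1, h⟩
  · rintro ⟨_, h⟩
    refine ⟨mem_nonIso_of_adj (t := t) (v := v) ?_, h⟩
    rw [adjOf_symm]
    exact fac_le G F hF t v u h

/-- The host conditions. -/
theorem host_of_factor {C : ℕ} (G : BGraph) (t : ℕ) (hG : HasFactor C G t)
    (hpos : 0 < (nonIso (inCode G t)).card) :
    ∃ (fac : ℕ → ℕ → Bool) (D q : ℕ),
      Pa7c826r.Host (G.a + G.b) (gw C (inCode G t)) (adjOf (inCode G t)) fac (fun v => v < G.a)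
        (nonIso (inCode G t)) D q (C * Nat.log 2 (G.a + G.b + t)) ∨
      Pa7c826r.Host (G.a + G.b) (gw C (inCode G t)) (adjOf (inCode G t)) fac (fun v => ¬ v < G.a)
        (nonIso (inCode G t)) D q (C * Nat.log 2 (G.a + G.b + t)) := by
  obtain ⟨F, q, s, hF, h1, h2⟩ := hG
  refine ⟨adjOf (inCode (BGraph.mk G.a G.b F) t), q - s, q, ?_⟩
  have hsub : nonIso (inCode G t) ⊆ range (G.a + G.b) :=
    fun v hv => mem_range.2 (mem_nonIso.1 hv).1
  have hn := card_nonIso G t
  have hsymm : ∀ u v, adjOf (inCode (BGraph.mk G.a G.b F) t) u v =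
      adjOf (inCode (BGraph.mk G.a G.b F) t) v u := adjOf_symm _
  have hq : 1 ≤ q := by
    by_contra h
    have hD : q = 0 := by omega
    rw [hD, ← hn] at h1
    simp only [Nat.mul_zero, Nat.zero_mul, nonpos_iff_eq_zero, mul_eq_zero] at h1
    omega
  have key : numNonIso G * (1 + s) ≤ q * (C * Nat.log 2 (G.a + G.b + t)) := by
    refine h1.trans (le_of_eq ?_)
    ring
  have hg : 2 * (nonIso (inCode G t)).card ≤ gw C (inCode G t) * q := by
    unfold gw lw
    rw [nOf_inCode, tOf_inCode, hn]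
    have h3 : numNonIso G ≤ numNonIso G * (1 + s) := Nat.le_mul_of_pos_right _ (by omega)
    have h4 := h3.trans key
    rw [show 2 * C * Nat.log 2 (G.a + G.b + t) * q =
      2 * (q * (C * Nat.log 2 (G.a + G.b + t))) by ring]
    omega
  have hH : ∀ (p : ℕ → Prop) [DecidablePred p],
      ((nonIso (inCode G t)).filter (fun v => p v)).card * (1 + (q - (q - s))) ≤
        q * (C * Nat.log 2 (G.a + G.b + t)) := by
    intro p _
    refine le_trans ?_ key
    rw [← hn]
    exact Nat.mul_le_mul (card_le_card (filter_subset _ _)) (by omega)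
  have hrow : ∀ v ∈ nonIso (inCode G t), v < G.a →
      ∃ i, dg (adjOf (inCode (BGraph.mk G.a G.b F) t)) (nonIso (inCode G t)) v =
        (BGraph.mk G.a G.b F).rowDeg i ∧ 0 < G.rowDeg i := by
    intro v hv hva
    refine ⟨⟨v, hva⟩, ?_, ?_⟩
    · rw [dg_fac_nonIso G F hF]
      exact dg_row (BGraph.mk G.a G.b F) t ⟨v, hva⟩
    · rw [← dg_row G t ⟨v, hva⟩]
      exact mem_nonIso_dg.1 hv
  have hcol : ∀ v ∈ nonIso (inCode G t), ¬ v < G.a →
      ∃ j, dg (adjOf (inCode (BGraph.mk G.a G.b F) t)) (nonIso (inCode G t)) v =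
        (BGraph.mk G.a G.b F).colDeg j ∧ 0 < G.colDeg j := by
    intro v hv hva
    have hv2 := (mem_nonIso.1 hv).1
    have e := dg_col (BGraph.mk G.a G.b F) t (⟨v - G.a, by omega⟩ : Fin G.b)
    have e' := dg_col G t ⟨v - G.a, by omega⟩
    dsimp only at e e'
    rw [show G.a + (v - G.a) = v by omega] at e e'
    refine ⟨(⟨v - G.a, by omega⟩ : Fin G.b), ?_, ?_⟩
    · rw [dg_fac_nonIso G F hF]
      exact e
    · rw [← e']
      exact mem_nonIso_dg.1 hv
  rcases h2 with ⟨h3, h4⟩ | ⟨h3, h4⟩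
  · left
    refine ⟨hsymm, fac_le G F hF t, hsub, hpos, hq, by omega, ?_, ?_, hH _, hg⟩
    · intro v hv hp
      obtain ⟨i, hi, hi0⟩ := hrow v hv hp
      rw [hi]
      rcases h3 i with h | h
      · omega
      · omega
    · intro v hv hp
      obtain ⟨j, hj, _⟩ := hcol v hv hp
      rw [hj]
      exact h4 j
  · right
    refine ⟨hsymm, fac_le G F hF t, hsub, hpos, hq, by omega, ?_, ?_, hH _, hg⟩
    · intro v hv hp
      obtain ⟨j, hj, hj0⟩ := hcol v hv hp
      rw [hj]
      rcases h3 j with h | h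
      · omega
      · omega
    · intro v hv hp
      obtain ⟨i, hi, _⟩ := hrow v hv (not_not.1 hp)
      rw [hi]
      exact h4 i

end Pool.Agent.Lib.Pa7c826r
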