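import Pool.Agent.Lib.Pa7c826r.ClassR
import Pool.Agent.Lib.Pa7c826t.EasyT

/-!
The deterministic approximation scheme for bipartite graphs that contain an almost regular spanning
subgraph.
-/

namespace Pool.Agent.Lib.Pa7c826r

open Pool.Agent.Lib.PolyTime Pool.Agent.Lib.Pa7c826 Finset
open Pool.Agent.Lib.Pa7c826t hiding gw Yw Kw algT upoly_gw upoly_Yw upoly_Kw upolyA_alive
  upolyF_leaf algT_poly Yw_pos algT_spec plv_length_class

theorem Yw_pos {C : ℕ} (G : BGraph) {t : ℕ} (ht : 1 ≤ t) : 1 ≤ Yw C (inCode G t) := by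
  unfold Yw
  rw [tOf_inCode]
  have : 0 < t * (lw (inCode G t) + 1) ^ (13 * C) := by positivity
  exact this

theorem algT_spec {C : ℕ} (G : BGraph) {t : ℕ} (ht : 1 ≤ t) (hG : HasFactor C G t) :
    algT C (inCode G t) ≤ numIndep G.graph ∧
      t * numIndep G.graph ≤ t * algT C (inCode G t) + numIndep G.graph := by
  have hY1 := Yw_pos (C := C) G ht
  have hK1 : 1 ≤ Kw C (inCode G t) := by
    unfold Kw
    exact Nat.one_le_pow _ _ (Nat.mul_pos (by positivity) (by positivity))
  have hb : ∀ u v, adjOf (inCode G t) u v = true → (u < G.a ↔ ¬ v < G.a) := by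
    intro u v h
    have h2 := adjOf_bip h
    rw [aOf_inCode, bOf_inCode] at h2
    omega
  have key : outA (G.a + G.b) G.a (gw C (inCode G t)) (adjOf (inCode G t)) (nonIso (inCode G t))
      (Yw C (inCode G t) ^ 24) (Kw C (inCode G t)) ≤
        ind (adjOf (inCode G t)) (nonIso (inCode G t)) ∧
      t * ind (adjOf (inCode G t)) (nonIso (inCode G t)) ≤
        t * outA (G.a + G.b) G.a (gw C (inCode G t)) (adjOf (inCode G t)) (nonIso (inCode G t))
          (Yw C (inCode G t) ^ 24) (Kw C (inCode G t)) +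
        ind (adjOf (inCode G t)) (nonIso (inCode G t)) := by
    rcases Nat.eq_zero_or_pos (nonIso (inCode G t)).card with h0 | h0
    · rw [card_eq_zero] at h0
      rw [h0, outA_empty (adjOf_symm _) (adjOf_self _) (Nat.one_le_pow _ _ hY1) hK1, ind_empty]
      omega
    · have hn : G.a + G.b + t ≠ 0 := by omega
      have hY : t * 2 ^ (3 * (C * Nat.log 2 (G.a + G.b + t)) + 5 * gw C (inCode G t)) ≤
          Yw C (inCode G t) := by
        unfold Yw gw lw
        rw [tOf_inCode, nOf_inCode]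
        refine Nat.mul_le_mul_left _ ?_
        rw [show 3 * (C * Nat.log 2 (G.a + G.b + t)) + 5 * (2 * C * Nat.log 2 (G.a + G.b + t)) =
          13 * (C * Nat.log 2 (G.a + G.b + t)) by ring]
        exact two_pow_log_le _ _ hn _
      have hK' : (2 ^ (C * Nat.log 2 (G.a + G.b + t)) * Yw C (inCode G t) ^ 24) ^ 24 ≤
          Kw C (inCode G t) := by
        unfold Kw lw
        rw [nOf_inCode, tOf_inCode]
        refine Nat.pow_le_pow_left (Nat.mul_le_mul_right _ ?_) _
        have := two_pow_log_le C _ hn 1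
        rwa [one_mul, one_mul] at this
      obtain ⟨fac, D, q, hH | hH⟩ := host_of_factor G t hG h0
      · exact outA_specR (adjOf_symm _) (adjOf_self _) (fun v => v < G.a)
          (Or.inl fun v => Iff.rfl) hb hH ht hY hK'
      · exact outA_specR (adjOf_symm _) (adjOf_self _) (fun v => ¬ v < G.a)
          (Or.inr fun v => Iff.rfl) hb hH ht hY hK'
  obtain ⟨h1, h2⟩ := key
  have e : numIndep G.graph = 2 ^ (G.a + G.b - (nonIso (inCode G t)).card) *
      ind (adjOf (inCode G t)) (nonIso (inCode G t)) := by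
    rw [← ind_eq_numIndep G t, ind_nonIso]
  unfold algT
  rw [nOf_inCode, aOf_inCode, e]
  refine ⟨Nat.mul_le_mul_left _ h1, ?_⟩
  have h3 := Nat.mul_le_mul_left (2 ^ (G.a + G.b - (nonIso (inCode G t)).card)) h2
  nlinarith [h3]

theorem plv_length_class {C : ℕ} (G : BGraph) {t : ℕ} (ht : 1 ≤ t) (hG : HasFactor C G t)
    (j : ℕ) :
    (plv (nOf (inCode G t)) (nonIso (inCode G t)).card (gw C (inCode G t))
      (adjOf (inCode G t)) (alive (nOf (inCode G t)) (aOf (inCode G t)) (adjOf (inCode G t))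
        (nonIso (inCode G t)) (Yw C (inCode G t) ^ 24))
      (nonIso (inCode G t)) j).length ≤
      (lw (inCode G t) + 1) ^ C * Yw C (inCode G t) ^ 24 := by
  have hY1 := Yw_pos (C := C) G ht
  have hY24 : 1 ≤ Yw C (inCode G t) ^ 24 := Nat.one_le_pow _ _ hY1
  have hb : ∀ u v, adjOf (inCode G t) u v = true → (u < G.a ↔ ¬ v < G.a) := by
    intro u v h
    have h2 := adjOf_bip h
    rw [aOf_inCode, bOf_inCode] at h2
    omega
  rcases Nat.eq_zero_or_pos (nonIso (inCode G t)).card with h0 | h0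
  · rw [card_eq_zero] at h0
    rw [h0, plv_empty (alive_empty hY24)]
    have h1 : 0 < (lw (inCode G t) + 1) ^ C * Yw C (inCode G t) ^ 24 :=
      Nat.mul_pos (by positivity) hY24
    rw [List.length_singleton]
    exact h1
  · have hn : G.a + G.b + t ≠ 0 := by omega
    have hH : 2 ^ (C * Nat.log 2 (G.a + G.b + t)) ≤ (lw (inCode G t) + 1) ^ C := by
      unfold lw
      rw [nOf_inCode, tOf_inCode]
      have := two_pow_log_le C _ hn 1
      rwa [one_mul, one_mul] at this
    rw [aOf_inCode]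
    obtain ⟨fac, D, q, hH' | hH'⟩ := host_of_factor G t hG h0
    · refine le_trans ?_ (Nat.mul_le_mul_right _ hH)
      rw [nOf_inCode]
      exact plv_lengthR (adjOf_symm _) (adjOf_self _) (fun v => v < G.a)
        (Or.inl fun v => Iff.rfl) hb hH' hY24 j
    · refine le_trans ?_ (Nat.mul_le_mul_right _ hH)
      rw [nOf_inCode]
      exact plv_lengthR (adjOf_symm _) (adjOf_self _) (fun v => ¬ v < G.a)
        (Or.inr fun v => Iff.rfl) hb hH' hY24 j

/-- Deterministic approximation scheme on a class of pairs of a graph and a precision. -/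
def HasFPTASOn (C : BGraph → ℕ → Prop) : Prop :=
  ∃ f : {x : BGraph × ℕ // C x.1 x.2 ∧ 1 ≤ x.2} → List Bool,
    Nonempty (Turing.TM2ComputableInPolyTime (α := {x : BGraph × ℕ // C x.1 x.2 ∧ 1 ≤ x.2})
      (αΓ := Bool) (βΓ := Bool) (fun x => inCode x.1.1 x.1.2) id f) ∧
    ∀ x, Good x.1.1 x.1.2 (f x)

theorem easyR (C : ℕ) : HasFPTASOn (HasFactor C) := by
  let D : BGraph × ℕ → Prop := fun x => HasFactor C x.1 x.2 ∧ 1 ≤ x.2
  let enc : BGraph × ℕ → List Bool := fun x => inCode x.1 x.2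
  have hw : PolyC D [enc] enc := PolyC.var (by simp)
  have hB : PolyN D [enc] (fun x => (lw (enc x) + 1) ^ C * Yw C (enc x) ^ 24) :=
    (PolyN.pow (upoly_lw hw).succ C).mul (PolyN.pow (upoly_Yw C hw) 24)
  obtain ⟨u, hu, hval⟩ := algT_poly C hw hB (fun x hx j _ => plv_length_class x.1 hx.2 hx.1 j)
  have hout : PolyC D [enc] (fun x => false :: u x) := PolyC.cons false hu
  refine ⟨fun x => false :: u x.1, PolyC.toTM2 enc (fun x => false :: u x) id hout, ?_⟩
  rintro ⟨⟨G, t⟩, hG, ht⟩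
  have hG' : HasFactor C G t := hG
  have ht' : 1 ≤ t := ht
  have h1 := algT_spec G ht' hG'
  have h2 : binVal (u (G, t)) = algT C (inCode G t) := by
    rw [binVal_eq_bval]
    exact hval (G, t) ⟨hG, ht⟩
  unfold Good
  simp only [outVal, h2]
  have htq : (0 : ℚ) < t := by exact_mod_cast ht'
  have h3 : (algT C (inCode G t) : ℚ) ≤ numIndep G.graph := by exact_mod_cast h1.1
  have h4 : (t : ℚ) * numIndep G.graph ≤ t * algT C (inCode G t) + numIndep G.graph := by
    exact_mod_cast h1.2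
  rw [abs_sub_comm, abs_of_nonneg (by linarith), le_div_iff₀ htq]
  linarith

/-- restriction to a smaller class -/
theorem HasFPTASOn.mono {C C' : BGraph → ℕ → Prop} (h : ∀ G t, 1 ≤ t → C G t → C' G t)
    (hC : HasFPTASOn C') : HasFPTASOn C := by
  obtain ⟨f, ⟨⟨tm, time, hout⟩⟩, hg⟩ := hC
  exact ⟨fun x => f ⟨x.1, h _ _ x.2.2 x.2.1, x.2.2⟩,
    ⟨⟨tm, time, fun x => hout ⟨x.1, h _ _ x.2.2 x.2.1, x.2.2⟩⟩⟩,
    fun x => hg ⟨x.1, h _ _ x.2.2 x.2.1, x.2.2⟩⟩

end Pool.Agent.Lib.Pa7c826r
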