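import Mathlib

/-!
Subgraphs of a bipartite graph with degrees at least `D` on the left side and at most `q` on the
right side (Hall's theorem).

PROOF. Hall's theorem for the left vertices `(v, k)`, `k < D`, and all edges, and the right vertices
`e` (edges) and `(u, k)`, `k < q`: `(v, k)` is joined to the edges at `v`, the edge `e` to itself and
to all `(u, k)` for its right end `u`. The edges assigned to the vertices `(v, k)` form the subgraph.
-/

namespace Pool.Agent.Lib.Pa7c826r

open Finset

variable {α β : Type*} [Fintype α] [Fintype β] [DecidableEq α] [DecidableEq β]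

/-- the number of edges between two sets -/
def eAB (E : α → β → Bool) (A : Finset α) (B : Finset β) : ℕ :=
  ((A ×ˢ B).filter fun x => E x.1 x.2 = true).card

/-- the allowed images in Hall's theorem -/
def hallT (E : α → β → Bool) (D q : ℕ) :
    (α × Fin D) ⊕ {x : α × β // E x.1 x.2 = true} →
      Finset ({x : α × β // E x.1 x.2 = true} ⊕ (β × Fin q))
  | Sum.inl v => univ.filter fun z => ∃ e : {x : α × β // E x.1 x.2 = true},
      z = Sum.inl e ∧ e.1.1 = v.1
  | Sum.inr e => univ.filter fun z => z = Sum.inl e ∨ ∃ k : Fin q, z = Sum.inr (e.1.2, k)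

theorem exists_fac (E : α → β → Bool) {D q : ℕ}
    (h : ∀ (A : Finset α) (B : Finset β), D * A.card ≤ eAB E A Bᶜ + q * B.card) :
    ∃ F : α → β → Bool, (∀ i j, F i j = true → E i j = true) ∧
      (∀ i, D ≤ (univ.filter fun j => F i j = true).card) ∧
      ∀ j, (univ.filter fun i => F i j = true).card ≤ q := by
  classical
  have hall : ∀ s : Finset ((α × Fin D) ⊕ {x : α × β // E x.1 x.2 = true}),
      s.card ≤ (s.biUnion (hallT E D q)).card := by
    intro s
    set A : Finset α := univ.filter fun v => ∃ k, Sum.inl (v, k) ∈ s with hA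
    set Y : Finset {x : α × β // E x.1 x.2 = true} := univ.filter fun e => Sum.inr e ∈ s with hY
    set B : Finset β := Y.image fun e => e.1.2 with hB
    have h1 : s.card ≤ D * A.card + Y.card := by
      have e1 : s ⊆ (A ×ˢ (univ : Finset (Fin D))).disjSum Y := by
        intro x hx
        rcases x with ⟨v, k⟩ | e
        · rw [inl_mem_disjSum, mem_product]
          exact ⟨mem_filter.2 ⟨mem_univ _, k, hx⟩, mem_univ _⟩
        · rw [inr_mem_disjSum]
          exact mem_filter.2 ⟨mem_univ _, hx⟩
      refine (card_le_card e1).trans ?_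
      rw [card_disjSum, card_product, card_univ, Fintype.card_fin, mul_comm]
    -- edges between `A` and the complement of `B`
    set W : Finset {x : α × β // E x.1 x.2 = true} :=
      univ.filter fun e => e.1.1 ∈ A ∧ e.1.2 ∉ B with hW
    have h2 : W.card = eAB E A Bᶜ := by
      unfold eAB
      refine card_bij (fun e _ => e.1) ?_ ?_ ?_
      · intro e he
        rw [hW, mem_filter] at he
        rw [mem_filter, mem_product, mem_compl]
        exact ⟨⟨he.2.1, he.2.2⟩, e.2⟩
      · intro e _ f _ hef
        exact Subtype.ext hef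
      · intro x hx
        rw [mem_filter, mem_product, mem_compl] at hx
        exact ⟨⟨x, hx.2⟩, mem_filter.2 ⟨mem_univ _, hx.1⟩, rfl⟩
    have h3 : Disjoint W Y := by
      rw [disjoint_left]
      intro e he he'
      rw [hW, mem_filter] at he
      exact he.2.2 (mem_image.2 ⟨e, he', rfl⟩)
    have h4 : (W ∪ Y).disjSum (B ×ˢ (univ : Finset (Fin q))) ⊆ s.biUnion (hallT E D q) := by
      intro z hz
      rw [mem_biUnion]
      rcases z with e | ⟨u, k⟩
      · rw [inl_mem_disjSum, mem_union] at hz
        rcases hz with hz | hz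
        · rw [hW, mem_filter, hA, mem_filter] at hz
          obtain ⟨_, ⟨_, k, hk⟩, _⟩ := hz
          exact ⟨_, hk, mem_filter.2 ⟨mem_univ _, e, rfl, rfl⟩⟩
        · rw [hY, mem_filter] at hz
          exact ⟨_, hz.2, mem_filter.2 ⟨mem_univ _, Or.inl rfl⟩⟩
      · rw [inr_mem_disjSum, mem_product, hB, mem_image] at hz
        obtain ⟨⟨e, he, heu⟩, _⟩ := hz
        rw [hY, mem_filter] at he
        simp only at heu
        exact ⟨_, he.2, mem_filter.2 ⟨mem_univ _, Or.inr ⟨k, by rw [heu]⟩⟩⟩
    have h5 := card_le_card h4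
    rw [card_disjSum, card_union_of_disjoint h3, card_product, card_univ, Fintype.card_fin,
      h2] at h5
    have h6 := h A B
    rw [mul_comm q] at h6
    omega
  obtain ⟨f, hf, hft⟩ := (Finset.all_card_le_biUnion_card_iff_exists_injective (hallT E D q)).1 hall
  refine ⟨fun i j => decide (∃ h : E i j = true, ∃ k, f (Sum.inl (i, k)) = Sum.inl ⟨(i, j), h⟩),
    ?_, ?_, ?_⟩
  · intro i j h
    rw [decide_eq_true_eq] at h
    exact h.1
  · intro i
    have hex : ∀ k : Fin D, ∃ e : {x : α × β // E x.1 x.2 = true},
        f (Sum.inl (i, k)) = Sum.inl e ∧ e.1.1 = i := by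
      intro k
      have h1 := hft (Sum.inl (i, k))
      unfold hallT at h1
      rw [mem_filter] at h1
      exact h1.2
    choose e he1 he2 using hex
    have h1 : (univ : Finset (Fin D)).card ≤ (univ.filter fun j => decide
        (∃ h : E i j = true, ∃ k, f (Sum.inl (i, k)) = Sum.inl ⟨(i, j), h⟩) = true).card := by
      refine card_le_card_of_injOn (fun k => (e k).1.2) ?_ ?_
      · intro k _
        rw [mem_coe, mem_filter, decide_eq_true_eq]
        have h2 : E i (e k).1.2 = true := by
          have h3 := (e k).2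
          rw [he2 k] at h3
          exact h3
        refine ⟨mem_univ _, h2, k, ?_⟩
        rw [he1 k]
        congr 1
        exact Subtype.ext (Prod.ext (he2 k) rfl)
      · intro k _ l _ hkl
        simp only at hkl
        have h3 : e k = e l := Subtype.ext (Prod.ext ((he2 k).trans (he2 l).symm) hkl)
        have h4 : f (Sum.inl (i, k)) = f (Sum.inl (i, l)) := by rw [he1, he1, h3]
        have h5 := hf h4
        simpa using h5
    rwa [card_univ, Fintype.card_fin] at h1
  · intro j
    have hex : ∀ i : {i : α // ∃ h : E i j = true, ∃ k, f (Sum.inl (i, k)) = Sum.inl ⟨(i, j), h⟩},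
        ∃ c : Fin q, f (Sum.inr ⟨(i.1, j), i.2.1⟩) = Sum.inr (j, c) := by
      rintro ⟨i, h, k, hk⟩
      have h1 := hft (Sum.inr ⟨(i, j), h⟩)
      unfold hallT at h1
      rw [mem_filter] at h1
      rcases h1.2 with h2 | ⟨c, h2⟩
      · exact absurd (hf (h2.trans hk.symm)) (by simp)
      · exact ⟨c, h2⟩
    choose c hc using hex
    have h1 : (univ.filter fun i => decide
        (∃ h : E i j = true, ∃ k, f (Sum.inl (i, k)) = Sum.inl ⟨(i, j), h⟩) = true).card =
        Fintype.card {i : α // ∃ h : E i j = true, ∃ k, f (Sum.inl (i, k)) = Sum.inl ⟨(i, j), h⟩} := by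
      rw [Fintype.card_subtype]
      congr 1
      ext i
      simp
    rw [h1]
    have h2 := Fintype.card_le_of_injective c (by
      intro i i' hii
      have h3 : f (Sum.inr ⟨(i.1, j), i.2.1⟩) = f (Sum.inr ⟨(i'.1, j), i'.2.1⟩) := by
        rw [hc, hc, hii]
      have h4 := hf h3
      rw [Sum.inr.injEq, Subtype.mk.injEq, Prod.mk.injEq] at h4
      exact Subtype.ext h4.1)
    rwa [Fintype.card_fin] at h2

end Pool.Agent.Lib.Pa7c826r
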