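import Pool.Agent.Lib.Pa7c826r.HostR
import Pool.Agent.Lib.Pa7c826t.HostA
import Pool.Agent.Lib.Pa7c826t.Dead
import Pool.Agent.Lib.Pa7c826t.ApproxT

/-!
The independence number of the host graph and the number of alive nodes.
-/

namespace Pool.Agent.Lib.Pa7c826r

open Finset Pool.Agent.Lib.Pa7c826 Pool.Agent.Lib.Pa7c826t

/-- The independence number of the host graph is between `b` and `b + H`. -/
theorem host_alphaR {n a g : ℕ} {adj fac : ℕ → ℕ → Bool} (hs : ∀ u v, adj u v = adj v u)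
    (_hl : ∀ u, adj u u = false) (p : ℕ → Prop) [DecidablePred p]
    (hp : (∀ v, p v ↔ v < a) ∨ ∀ v, p v ↔ ¬ v < a)
    (hbip : ∀ u v, adj u v = true → (u < a ↔ ¬ v < a)) {S₀ : Finset ℕ} {D q H : ℕ}
    (hh : Pa7c826r.Host n g adj fac p S₀ D q H) :
    (S₀.filter (fun u => ¬ p u)).card + nu n a adj S₀ ≤ S₀.card ∧
      S₀.card ≤ (S₀.filter (fun u => ¬ p u)).card + H + nu n a adj S₀ ∧
      ind adj S₀ ≤ 2 ^ ((S₀.filter (fun u => ¬ p u)).card + H) := by
  have hb := hostA_bip p hp hbip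
  have h1 : (S₀.filter (fun u => ¬ p u)).card + nu n a adj S₀ ≤ S₀.card := by
    refine indep_nu hh.sub hs hbip (filter_subset _ _) ?_
    intro u hu v hv
    by_contra h
    rw [Bool.not_eq_false] at h
    exact (mem_filter.1 hu).2 ((hb u v h).2 (mem_filter.1 hv).2)
  have h2 := hh.root hb (lam := 1) (by norm_num) le_rfl
  rw [wind_one] at h2
  have h3 : ind adj S₀ ≤ 2 ^ ((S₀.filter (fun u => ¬ p u)).card + H) := by
    have e : (2 : ℝ) ^ H * (1 + 1) ^ (S₀.filter (fun u => ¬ p u)).card =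
        2 ^ ((S₀.filter (fun u => ¬ p u)).card + H) := by
      rw [show (1 : ℝ) + 1 = 2 by norm_num, pow_add, mul_comm]
    rw [e] at h2
    exact_mod_cast h2
  refine ⟨h1, ?_, h3⟩
  have h4 := (two_pow_le_ind_nu hh.sub hs hbip).trans h3
  have h5 := (Nat.pow_le_pow_iff_right (by norm_num : 1 < 2)).1 h4
  omega

/-- The number of alive nodes at each level is at most `2 ^ H * K`. -/
theorem plv_lengthR {n a g : ℕ} {adj fac : ℕ → ℕ → Bool} (hs : ∀ u v, adj u v = adj v u)
    (hl : ∀ u, adj u u = false) (p : ℕ → Prop) [DecidablePred p]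
    (hp : (∀ v, p v ↔ v < a) ∨ ∀ v, p v ↔ ¬ v < a)
    (hbip : ∀ u v, adj u v = true → (u < a ↔ ¬ v < a)) {S₀ : Finset ℕ} {D q H : ℕ}
    (hh : Pa7c826r.Host n g adj fac p S₀ D q H) {K : ℕ} (hK : 1 ≤ K) (t : ℕ) :
    (plv n S₀.card g adj (alive n a adj S₀ K) S₀ t).length ≤ 2 ^ H * K := by
  obtain ⟨h1, _, h3⟩ := host_alphaR hs hl p hp hbip hh
  have hal : ∀ S, alive n a adj S₀ K S = true ↔
      2 ^ ((nu n a adj S + S₀.card) - (nu n a adj S₀ + S.card)) ≤ K := by
    intro S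
    unfold alive
    rw [decide_eq_true_eq, Nat.one_le_div_iff (by positivity)]
  rw [plv_eq (fun S T hS hT h => by
    rw [hal] at h ⊢
    refine le_trans (Nat.pow_le_pow_right (by norm_num) ?_) h
    have := nu_mono (hS.trans hh.sub) hs hbip hT
    omega) (by
    rw [hal]
    simpa using hK)]
  have hn0 := nu_le hh.sub hs hbip
  have h4 := hostA_list ((lvw n S₀.card g adj S₀ t).map Prod.fst) (alive n a adj S₀ K) (ind adj)
    (A := 2 ^ (S₀.card - nu n a adj S₀)) (K := K) (by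
      intro S hS hS2
      rw [List.mem_map] at hS
      obtain ⟨x, hx, rfl⟩ := hS
      have hsub := lvw_sub t x hx
      rw [hal] at hS2
      have h5 := two_pow_le_ind_nu (hsub.trans hh.sub) hs hbip
      have hn := nu_le (hsub.trans hh.sub) hs hbip
      calc 2 ^ (S₀.card - nu n a adj S₀) ≤
          2 ^ (((nu n a adj x.1 + S₀.card) - (nu n a adj S₀ + x.1.card)) +
            (x.1.card - nu n a adj x.1)) := Nat.pow_le_pow_right (by norm_num) (by omega)
        _ = 2 ^ ((nu n a adj x.1 + S₀.card) - (nu n a adj S₀ + x.1.card)) *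
            2 ^ (x.1.card - nu n a adj x.1) := pow_add _ _ _
        _ ≤ K * ind adj x.1 := Nat.mul_le_mul hS2 h5)
  rw [hostA_sum hs hl hh.sub] at h4
  have h6 : K * ind adj S₀ ≤ (2 ^ H * K) * 2 ^ (S₀.card - nu n a adj S₀) := by
    calc K * ind adj S₀ ≤ K * 2 ^ ((S₀.filter (fun u => ¬ p u)).card + H) :=
          Nat.mul_le_mul_left _ h3
      _ ≤ K * 2 ^ ((S₀.card - nu n a adj S₀) + H) :=
          Nat.mul_le_mul_left _ (Nat.pow_le_pow_right (by norm_num) (by omega))
      _ = (2 ^ H * K) * 2 ^ (S₀.card - nu n a adj S₀) := by rw [pow_add]; ring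
  exact Nat.le_of_mul_le_mul_right (h4.trans h6) (by positivity)

end Pool.Agent.Lib.Pa7c826r
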