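import Pool.Agent.Lib.Pa7c826t.Tree
import Pool.Agent.Lib.Pa7c826t.Nu
import Pool.Agent.Lib.Pa7c826t.RootBound
import Pool.Agent.Lib.Pa7c826t.LeafBound
import Pool.Agent.Lib.Pa7c826t.CovMatch
import Pool.Agent.Lib.Pa7c826t.ApproxDef

/-!
The conditions on the host graph: it contains an almost regular spanning subgraph.
-/

namespace Pool.Agent.Lib.Pa7c826r

open Finset Pool.Agent.Lib.Pa7c826 Pool.Agent.Lib.Pa7c826t

theorem dg_fac {adj fac : ℕ → ℕ → Bool} (hle : ∀ u v, fac u v = true → adj u v = true)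
    (S : Finset ℕ) (v : ℕ) : dg fac S v ≤ dg adj S v := by
  unfold dg
  exact card_le_card fun u hu => by
    rw [mem_filter] at hu ⊢
    exact ⟨hu.1, hle v u hu.2⟩

/-- a subgraph has more independent sets -/
theorem wind_fac {adj fac : ℕ → ℕ → Bool} (hle : ∀ u v, fac u v = true → adj u v = true)
    {lam : ℝ} (h0 : 0 ≤ lam) (S : Finset ℕ) : wind adj lam S ≤ wind fac lam S := by
  unfold wind
  refine sum_le_sum_of_subset_of_nonneg ?_ fun _ _ _ => pow_nonneg h0 _
  intro I hI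
  rw [mem_filter] at hI ⊢
  refine ⟨hI.1, fun u hu v hv => ?_⟩
  by_contra h
  rw [Bool.not_eq_false] at h
  have h1 := hI.2 u hu v hv
  rw [hle u v h] at h1
  exact absurd h1 (by simp)

/-- The leaf bound. `fac` is a subgraph of `adj` with degrees in `S₀` at least `D` on the side `p`
and at most `q` on the other side, and `b` vertices on that side; `S ⊆ S₀` induces a subgraph of
`adj` of maximum degree at most `q / 2` with the matching `M`. Writing `κ = 33 / 32` we get
`i(S) κ ^ (2 (b + ν)) ≤ 2 ^ (b + H) κ ^ (2 |S|)` and `i(S) κ ^ (2 ν) ≤ 2 ^ (b + H)`. -/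
theorem leaf_fac {adj fac : ℕ → ℕ → Bool} (hs : ∀ u v, adj u v = adj v u)
    (hs' : ∀ u v, fac u v = fac v u) (hle : ∀ u v, fac u v = true → adj u v = true) (p : ℕ → Prop)
    [DecidablePred p] (hbip : ∀ u v, adj u v = true → (p u ↔ ¬ p v)) {S₀ S : Finset ℕ}
    {D q H : ℕ} (hq : 1 ≤ q) (hDq : D ≤ q) (hrow : ∀ v ∈ S₀, p v → D ≤ dg fac S₀ v)
    (hcol : ∀ u ∈ S₀, ¬ p u → dg fac S₀ u ≤ q)
    (hH : (S₀.filter (fun v => p v)).card * (1 + (q - D)) ≤ q * H) (hS : S ⊆ S₀)
    (hdeg : ∀ v ∈ S, 2 * dg adj S v ≤ q) {M : Finset (ℕ × ℕ)} (hM : IsMat adj p S M) :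
    (ind adj S : ℝ) * (33 / 32) ^ (2 * ((S₀.filter (fun u => ¬ p u)).card + M.card)) ≤
        2 ^ ((S₀.filter (fun u => ¬ p u)).card + H) * (33 / 32) ^ (2 * S.card) ∧
      (ind adj S : ℝ) * (33 / 32) ^ (2 * M.card) ≤
        2 ^ ((S₀.filter (fun u => ¬ p u)).card + H) := by
  set l := (S.filter (fun v => p v)).card with hl
  set r := (S.filter (fun u => ¬ p u)).card with hr
  set b := (S₀.filter (fun u => ¬ p u)).card with hb
  set e := ∑ u ∈ S.filter (fun u => ¬ p u), dg adj S u with he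
  set E2 := ∑ u ∈ S.filter (fun u => ¬ p u), (q - dg adj S u) with hE2
  have hcard : S.card = l + r := (Finset.card_filter_add_card_filter_not (s := S) (fun v => p v)).symm
  have hedge : D * l + q * r ≤ e + q * b :=
    (leafBound_edges hs' p (fun u v h => hbip u v (hle u v h)) hrow hcol hS).trans
      (Nat.add_le_add_right (Finset.sum_le_sum fun u _ => dg_fac hle S u) _)
  have hsum : E2 + e = q * r := by
    rw [hE2, he, ← Finset.sum_add_distrib, hr, mul_comm, ← smul_eq_mul, ← Finset.sum_const]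
    apply Finset.sum_congr rfl
    intro u hu
    rw [Finset.mem_filter] at hu
    have := hdeg u hu.1
    omega
  have hl0 : l ≤ (S₀.filter (fun v => p v)).card :=
    Finset.card_le_card (Finset.filter_subset_filter _ hS)
  have hlH : l * (1 + (q - D)) ≤ q * H := (Nat.mul_le_mul_right _ hl0).trans hH
  have hEx : (q + 1) * l + E2 ≤ q * (b + H) := by
    obtain ⟨s, rfl⟩ := Nat.exists_eq_add_of_le hDq
    have h1 : D + s - D = s := by omega
    rw [h1] at hlH
    nlinarith [hlH, hedge, hsum]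
  have hhol := leaf_holder hs p hbip hq hdeg hM
  rw [← hl, ← hE2] at hhol
  have hmat := leafBound_mat hq hdeg hM
  set i : ℝ := (ind adj S : ℝ) with hi
  have hi0 : 0 ≤ i := Nat.cast_nonneg _
  set ν := M.card with hν
  have hkey : i ^ q * (33 / 32) ^ (2 * q * ν) ≤ 2 ^ ((q + 1) * l + E2) := by
    calc i ^ q * (33 / 32) ^ (2 * q * ν) ≤
        (2 ^ ((q + 1) * l + E2) * (3 / 4) ^ (ν * (q / 2))) * (33 / 32) ^ (2 * q * ν) := by
          gcongr
      _ = 2 ^ ((q + 1) * l + E2) * ((3 / 4) ^ (ν * (q / 2)) * (33 / 32) ^ (2 * q * ν)) := by ring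
      _ ≤ 2 ^ ((q + 1) * l + E2) * 1 := by gcongr
      _ = _ := mul_one _
  have hq0 : q ≠ 0 := by omega
  constructor
  · apply le_of_pow_le_pow_left₀ hq0 (by positivity)
    have hfin : (2 : ℝ) ^ ((q + 1) * l + E2) * (33 / 32) ^ (2 * q * b) ≤
        2 ^ (q * (b + H)) * (33 / 32) ^ (2 * q * (l + r)) := by
      rcases Nat.le_total b (l + r) with h | h
      · apply mul_le_mul
        · exact pow_le_pow_right₀ (by norm_num) hEx
        · exact pow_le_pow_right₀ (by norm_num) (by gcongr)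
        · positivity
        · positivity
      · obtain ⟨c, hc⟩ := Nat.exists_eq_add_of_le h
        have hlq : l ≤ q * H := by
          refine le_trans ?_ hlH
          exact Nat.le_mul_of_pos_right _ (by omega)
        have h1 : (q + 1) * l + E2 + q * c ≤ q * (b + H) := by
          rw [hc]
          nlinarith [hsum, hlq]
        have h2 : ((33 : ℝ) / 32) ^ (2 * q * c) ≤ 2 ^ (q * c) := by
          rw [mul_assoc, pow_mul]
          exact pow_le_pow_left₀ (by norm_num) (by norm_num) _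
        calc (2 : ℝ) ^ ((q + 1) * l + E2) * (33 / 32) ^ (2 * q * b)
            = 2 ^ ((q + 1) * l + E2) * (33 / 32) ^ (2 * q * c) * (33 / 32) ^ (2 * q * (l + r)) := by
              rw [mul_assoc (2 ^ ((q + 1) * l + E2)), ← pow_add, hc]
              congr 2
              ring
          _ ≤ 2 ^ ((q + 1) * l + E2) * 2 ^ (q * c) * (33 / 32) ^ (2 * q * (l + r)) := by
              gcongr
          _ = 2 ^ ((q + 1) * l + E2 + q * c) * (33 / 32) ^ (2 * q * (l + r)) := by
              rw [← pow_add]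
          _ ≤ 2 ^ (q * (b + H)) * (33 / 32) ^ (2 * q * (l + r)) := by
              gcongr
              norm_num
    calc (i * (33 / 32) ^ (2 * (b + ν))) ^ q
        = (i ^ q * (33 / 32) ^ (2 * q * ν)) * (33 / 32) ^ (2 * q * b) := by
          rw [mul_pow, ← pow_mul, mul_assoc (i ^ q), ← pow_add]
          congr 2
          ring
      _ ≤ 2 ^ ((q + 1) * l + E2) * (33 / 32) ^ (2 * q * b) := by gcongr
      _ ≤ 2 ^ (q * (b + H)) * (33 / 32) ^ (2 * q * (l + r)) := hfin
      _ = (2 ^ (b + H) * (33 / 32) ^ (2 * S.card)) ^ q := by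
          rw [mul_pow, ← pow_mul, ← pow_mul, hcard]
          congr 2 <;> ring
  · apply le_of_pow_le_pow_left₀ hq0 (by positivity)
    calc (i * (33 / 32) ^ (2 * ν)) ^ q = i ^ q * (33 / 32) ^ (2 * q * ν) := by
          rw [mul_pow, ← pow_mul]
          congr 2
          ring
      _ ≤ 2 ^ ((q + 1) * l + E2) := hkey
      _ ≤ 2 ^ (q * (b + H)) := pow_le_pow_right₀ (by norm_num) hEx
      _ = (2 ^ (b + H)) ^ q := by
          rw [← pow_mul]
          congr 1
          ring

/-- The host graph `adj` on `S₀` contains the subgraph `fac` in which all degrees on the side `p`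
are at least `D` and all degrees on the other side at most `q`, and `g ≥ 2 |S₀| / q`,
`H ≥ |p-side| (1 + q - D) / q`. -/
structure Host (n g : ℕ) (adj fac : ℕ → ℕ → Bool) (p : ℕ → Prop) [DecidablePred p]
    (S₀ : Finset ℕ) (D q H : ℕ) : Prop where
  symm : ∀ u v, fac u v = fac v u
  le : ∀ u v, fac u v = true → adj u v = true
  sub : S₀ ⊆ range n
  pos : 0 < S₀.card
  hq : 1 ≤ q
  hDq : D ≤ q
  hrow : ∀ v ∈ S₀, p v → D ≤ dg fac S₀ v
  hcol : ∀ u ∈ S₀, ¬ p u → dg fac S₀ u ≤ q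
  hH : (S₀.filter (fun v => p v)).card * (1 + (q - D)) ≤ q * H
  hg : 2 * S₀.card ≤ g * q

theorem Host.root {n g : ℕ} {adj fac : ℕ → ℕ → Bool} {p : ℕ → Prop} [DecidablePred p]
    {S₀ : Finset ℕ} {D q H : ℕ} (hh : Host n g adj fac p S₀ D q H)
    (hbip : ∀ u v, adj u v = true → (p u ↔ ¬ p v)) {lam : ℝ} (h0 : 0 ≤ lam) (h1 : lam ≤ 1) :
    wind adj lam S₀ ≤ 2 ^ H * (1 + lam) ^ (S₀.filter (fun u => ¬ p u)).card :=
  (wind_fac hh.le h0 S₀).trans (root_bound hh.symm p (fun u v h => hbip u v (hh.le u v h)) hh.hq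
    hh.hDq hh.hrow hh.hcol hh.hH h0 h1)

theorem Host.leaf {n g : ℕ} {adj fac : ℕ → ℕ → Bool} {p : ℕ → Prop} [DecidablePred p]
    {S₀ : Finset ℕ} {D q H : ℕ} (hh : Host n g adj fac p S₀ D q H)
    (hs : ∀ u v, adj u v = adj v u) (hbip : ∀ u v, adj u v = true → (p u ↔ ¬ p v))
    {S : Finset ℕ} (hS : S ⊆ S₀) (hdeg : ∀ v ∈ S, 2 * dg adj S v ≤ q) {M : Finset (ℕ × ℕ)}
    (hM : IsMat adj p S M) :
    (ind adj S : ℝ) * (33 / 32) ^ (2 * ((S₀.filter (fun u => ¬ p u)).card + M.card)) ≤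
        2 ^ ((S₀.filter (fun u => ¬ p u)).card + H) * (33 / 32) ^ (2 * S.card) ∧
      (ind adj S : ℝ) * (33 / 32) ^ (2 * M.card) ≤
        2 ^ ((S₀.filter (fun u => ¬ p u)).card + H) :=
  leaf_fac hs hh.symm hh.le p hbip hh.hq hh.hDq hh.hrow hh.hcol hh.hH hS hdeg hM

end Pool.Agent.Lib.Pa7c826r
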