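import Pool.Agent.Lib.Pa7c826w.Det

/-!
Hard instances in which the sum of the minimum degrees of the two sides is almost the size of a side.

The input graph is padded with isolated vertices to `n₁` left and `n₂` right vertices; then `e` new
left and `d` new right vertices are added, joined to all vertices of the other side. For
`d = P h`, `e = Q h`, `n₁ = P h + s`, `n₂ = Q h + s` both sides have `N = (P + Q) h + s` vertices, all
left degrees are at least `d` and all right degrees at least `e`. The new vertices add at most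
`2 ^ (N + 2)` independent sets, and the others are `i(G) 2 ^ (N + s - a - b)` many.
-/

namespace Pool.Agent.Lib.Pa7c826r

open Pool.Agent.Lib.PolyTime Pool.Agent.Lib.Pa7c826 Pool.Agent.Lib.Pa7c826y
  Pool.Agent.Lib.Pa7c826z Pool.Agent.Lib.Pa7c826w

/-- Add `γ` on the left and `δ` on the right, joined to all vertices of the other side. -/
def full {α β : Type*} (γ δ : Type*) (E : α → β → Prop) : α ⊕ γ → β ⊕ δ → Prop
  | .inl a, .inl b => E a b
  | .inl _, .inr _ => True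
  | .inr _, .inl _ => True
  | .inr _, .inr _ => True

section

variable {α β γ δ : Type*}

theorem cnt_full_lower [Finite α] [Finite β] [Finite γ] [Finite δ] (E : α → β → Prop) :
    cnt E ≤ cnt (full γ δ E) := by
  have : Finite {P : Set (α ⊕ γ) × Set (β ⊕ δ) // ∀ a ∈ P.1, ∀ b ∈ P.2, ¬ full γ δ E a b} :=
    inferInstance
  refine Nat.card_le_card_of_injective
    (fun P : {P : Set α × Set β // ∀ a ∈ P.1, ∀ b ∈ P.2, ¬ E a b} =>
      (⟨(Sum.inl '' P.1.1, Sum.inl '' P.1.2), ?_⟩ :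
        {P : Set (α ⊕ γ) × Set (β ⊕ δ) // ∀ a ∈ P.1, ∀ b ∈ P.2, ¬ full γ δ E a b})) ?_
  · rintro _ ⟨a, ha, rfl⟩ _ ⟨b, hb, rfl⟩
    exact P.2 a ha b hb
  · intro P Q h
    rw [Subtype.mk.injEq, Prod.mk.injEq] at h
    refine Subtype.ext (Prod.ext ?_ ?_)
    · exact Sum.inl_injective.image_injective h.1
    · exact Sum.inl_injective.image_injective h.2

theorem cnt_full_upper [Fintype α] [Fintype β] [Fintype γ] [Fintype δ] (E : α → β → Prop)
    {N : ℕ} (h1 : Fintype.card α + Fintype.card γ = N) (h2 : Fintype.card β + Fintype.card δ = N)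
    (h3 : Fintype.card γ + Fintype.card δ ≤ N) :
    cnt (full γ δ E) ≤ cnt E + 2 ^ (N + 2) := by
  have h4 : cnt (full γ δ E) ≤ cnt (cross γ δ E) := by
    refine cnt_anti ?_
    rintro (x | x) (y | y) h
    · exact h
    · trivial
    · trivial
    · trivial
  rw [cnt_cross] at h4
  refine h4.trans ?_
  have e1 : (2 ^ Fintype.card δ - 1) * 2 ^ Fintype.card β ≤ 2 ^ N := by
    calc (2 ^ Fintype.card δ - 1) * 2 ^ Fintype.card β
        ≤ 2 ^ Fintype.card δ * 2 ^ Fintype.card β := Nat.mul_le_mul_right _ (Nat.sub_le _ _)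
      _ = 2 ^ N := by rw [← pow_add]; congr 1; omega
  have e2 : (2 ^ Fintype.card γ - 1) * (2 ^ Fintype.card α + (2 ^ Fintype.card δ - 1)) ≤
      2 ^ N + 2 ^ N := by
    calc (2 ^ Fintype.card γ - 1) * (2 ^ Fintype.card α + (2 ^ Fintype.card δ - 1))
        ≤ 2 ^ Fintype.card γ * (2 ^ Fintype.card α + 2 ^ Fintype.card δ) :=
          Nat.mul_le_mul (Nat.sub_le _ _) (Nat.add_le_add_left (Nat.sub_le _ _) _)
      _ = 2 ^ (Fintype.card γ + Fintype.card α) + 2 ^ (Fintype.card γ + Fintype.card δ) := by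
          rw [mul_add, pow_add, pow_add]
      _ ≤ 2 ^ N + 2 ^ N := by
          refine Nat.add_le_add (Nat.pow_le_pow_right (by norm_num) (by omega))
            (Nat.pow_le_pow_right (by norm_num) h3)
  have e3 : 2 ^ (N + 2) = 2 ^ N + 2 ^ N + 2 ^ N + 2 ^ N := by
    rw [pow_add]
    ring
  have e4 : 0 < 2 ^ N := by positivity
  omega

end

/-- padding with isolated vertices -/
theorem cnt_padded2 (G : BGraph) {w w' : ℕ} (ha : G.a ≤ w) (hb : G.b ≤ w') :
    cnt (fun (i : Fin w) (j : Fin w') => G.F i j = true) =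
      numIndep G.graph * 2 ^ ((w - G.a) + (w' - G.b)) := by
  have h1 := cnt_pad (γ := Fin (w - G.a)) (δ := Fin (w' - G.b))
    (fun (i : Fin G.a) (j : Fin G.b) => G.F i j = true)
  rw [cnt_graph, Nat.card_fin, Nat.card_fin] at h1
  rw [← h1]
  symm
  have e1 : G.a + (w - G.a) = w := by omega
  have e2 : G.b + (w' - G.b) = w' := by omega
  have v1 : ∀ x : Fin G.a, ((finSumFinEquiv.trans (finCongr e1) (Sum.inl x) : Fin w) : ℕ) = x :=
    fun x => by simp
  have v2 : ∀ x : Fin (w - G.a), ((finSumFinEquiv.trans (finCongr e1) (Sum.inr x) : Fin w) : ℕ) =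
      G.a + x := fun x => by simp
  have v3 : ∀ x : Fin G.b, ((finSumFinEquiv.trans (finCongr e2) (Sum.inl x) : Fin w') : ℕ) = x :=
    fun x => by simp
  have v4 : ∀ x : Fin (w' - G.b),
      ((finSumFinEquiv.trans (finCongr e2) (Sum.inr x) : Fin w') : ℕ) = G.b + x := fun x => by simp
  refine cnt_congr (finSumFinEquiv.trans (finCongr e1)) (finSumFinEquiv.trans (finCongr e2)) ?_
  have hout : ∀ i j : ℕ, (G.a ≤ i ∨ G.b ≤ j) → G.F i j = false := by
    intro i j h
    unfold BGraph.F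
    rw [dif_neg]
    rintro ⟨h1, h2⟩
    omega
  rintro (x | x) (y | y)
  · rw [v1, v3]
    simp only [pad]
  · rw [v1, v4, hout _ _ (Or.inr (Nat.le_add_right _ _))]
    simp [pad]
  · rw [v2, v3, hout _ _ (Or.inl (Nat.le_add_right _ _))]
    simp [pad]
  · rw [v2, v4, hout _ _ (Or.inl (Nat.le_add_right _ _))]
    simp [pad]

/-- adjacency function -/
def F6 (n1 n2 : ℕ) (F : ℕ → ℕ → Bool) (i j : ℕ) : Bool :=
  ((decide (i < n1) && decide (j < n2)) && F i j) || (decide (n1 ≤ i) || decide (n2 ≤ j))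

/-- the whole relation -/
def rel6 (n1 e n2 d : ℕ) (F : ℕ → ℕ → Bool) : Fin n1 ⊕ Fin e → Fin n2 ⊕ Fin d → Prop :=
  full (Fin e) (Fin d) (fun (i : Fin n1) (j : Fin n2) => F i j = true)

theorem F6_iff {n1 e n2 d : ℕ} (F : ℕ → ℕ → Bool) (x : Fin n1 ⊕ Fin e) (y : Fin n2 ⊕ Fin d) :
    rel6 n1 e n2 d F x y ↔ F6 n1 n2 F (eq5 n1 e x) (eq5 n2 d y) = true := by
  rcases x with x | x <;> rcases y with y | y <;>
    simp only [eq5_1, eq5_2, F6, rel6, full, Bool.or_eq_true, Bool.and_eq_true,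
      decide_eq_true_eq] <;>
    have hx := x.2 <;> have hy := y.2
  · constructor
    · intro h1
      exact Or.inl ⟨⟨hx, hy⟩, h1⟩
    · rintro (h1 | h1 | h1)
      · exact h1.2
      · omega
      · omega
  · exact ⟨fun _ => Or.inr (Or.inr (by omega)), fun _ => trivial⟩
  · exact ⟨fun _ => Or.inr (Or.inl (by omega)), fun _ => trivial⟩
  · exact ⟨fun _ => Or.inr (Or.inl (by omega)), fun _ => trivial⟩

variable (P Q k n0 : ℕ)

/-- deficiency -/
def s6 (G : BGraph) (t : ℕ) : ℕ := supp G + Nat.log 2 (2 * t + 1) + 4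

/-- The new graph. -/
def red6 (G : BGraph) (t : ℕ) : BGraph :=
  mkGraph ((P * p5 k n0 G t + s6 G t) + Q * p5 k n0 G t)
    ((Q * p5 k n0 G t + s6 G t) + P * p5 k n0 G t)
    (F6 (P * p5 k n0 G t + s6 G t) (Q * p5 k n0 G t + s6 G t) G.F)

/-- The exponent. -/
def K6 (G : BGraph) (t : ℕ) : ℕ :=
  ((P * p5 k n0 G t + s6 G t) - G.a) + ((Q * p5 k n0 G t + s6 G t) - G.b)

/-- the size of a side -/
def N6 (G : BGraph) (t : ℕ) : ℕ := (P + Q) * p5 k n0 G t + s6 G t

theorem red6_a (G : BGraph) (t : ℕ) : (red6 P Q k n0 G t).a = N6 P Q k n0 G t := by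
  show (P * p5 k n0 G t + s6 G t) + Q * p5 k n0 G t = (P + Q) * p5 k n0 G t + s6 G t
  ring

theorem red6_b (G : BGraph) (t : ℕ) : (red6 P Q k n0 G t).b = N6 P Q k n0 G t := by
  show (Q * p5 k n0 G t + s6 G t) + P * p5 k n0 G t = (P + Q) * p5 k n0 G t + s6 G t
  ring

theorem numIndep_red6 (G : BGraph) (t : ℕ) :
    numIndep (red6 P Q k n0 G t).graph =
      cnt (rel6 (P * p5 k n0 G t + s6 G t) (Q * p5 k n0 G t) (Q * p5 k n0 G t + s6 G t)
        (P * p5 k n0 G t) G.F) :=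
  numIndep_mkGraph (eq5 _ _) (eq5 _ _) (fun x y => F6_iff G.F x y)

theorem red6_row (G : BGraph) (t : ℕ) (i : Fin (red6 P Q k n0 G t).a) :
    P * p5 k n0 G t ≤ (red6 P Q k n0 G t).rowDeg i := by
  revert i
  show ∀ i : Fin ((P * p5 k n0 G t + s6 G t) + Q * p5 k n0 G t),
    P * p5 k n0 G t ≤ (red6 P Q k n0 G t).rowDeg i
  intro i
  obtain ⟨z, rfl⟩ := (eq5 (P * p5 k n0 G t + s6 G t) (Q * p5 k n0 G t)).surjective i
  have h1 : (red6 P Q k n0 G t).rowDeg (eq5 (P * p5 k n0 G t + s6 G t) (Q * p5 k n0 G t) z) = _ :=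
    rowDeg_mkGraph (eq5 (P * p5 k n0 G t + s6 G t) (Q * p5 k n0 G t))
      (eq5 (Q * p5 k n0 G t + s6 G t) (P * p5 k n0 G t)) (fun z y => F6_iff G.F z y) z
  rw [h1]
  have h2 : Set.range (Sum.inr : Fin (P * p5 k n0 G t) →
      Fin (Q * p5 k n0 G t + s6 G t) ⊕ Fin (P * p5 k n0 G t)) ⊆
      {y | rel6 (P * p5 k n0 G t + s6 G t) (Q * p5 k n0 G t) (Q * p5 k n0 G t + s6 G t)
        (P * p5 k n0 G t) G.F z y} := by
    rintro _ ⟨y, rfl⟩
    rcases z with z | z
    · exact trivial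
    · exact trivial
  have h3 := Set.ncard_le_ncard h2 (Set.toFinite _)
  rw [Set.ncard_range_of_injective Sum.inr_injective, Nat.card_fin] at h3
  exact h3

theorem red6_col (G : BGraph) (t : ℕ) (j : Fin (red6 P Q k n0 G t).b) :
    Q * p5 k n0 G t ≤ (red6 P Q k n0 G t).colDeg j := by
  revert j
  show ∀ j : Fin ((Q * p5 k n0 G t + s6 G t) + P * p5 k n0 G t),
    Q * p5 k n0 G t ≤ (red6 P Q k n0 G t).colDeg j
  intro j
  obtain ⟨z, rfl⟩ := (eq5 (Q * p5 k n0 G t + s6 G t) (P * p5 k n0 G t)).surjective j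
  have h1 : (red6 P Q k n0 G t).colDeg (eq5 (Q * p5 k n0 G t + s6 G t) (P * p5 k n0 G t) z) = _ :=
    colDeg_mkGraph (eq5 (P * p5 k n0 G t + s6 G t) (Q * p5 k n0 G t))
      (eq5 (Q * p5 k n0 G t + s6 G t) (P * p5 k n0 G t)) (fun z y => F6_iff G.F z y) z
  rw [h1]
  have h2 : Set.range (Sum.inr : Fin (Q * p5 k n0 G t) →
      Fin (P * p5 k n0 G t + s6 G t) ⊕ Fin (Q * p5 k n0 G t)) ⊆
      {x | rel6 (P * p5 k n0 G t + s6 G t) (Q * p5 k n0 G t) (Q * p5 k n0 G t + s6 G t)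
        (P * p5 k n0 G t) G.F x z} := by
    rintro _ ⟨y, rfl⟩
    rcases z with z | z
    · exact trivial
    · exact trivial
  have h3 := Set.ncard_le_ncard h2 (Set.toFinite _)
  rw [Set.ncard_range_of_injective Sum.inr_injective, Nat.card_fin] at h3
  exact h3

variable {P Q}

theorem close6 (hP : 0 < P) (hQ : 0 < Q) (G : BGraph) (t : ℕ) :
    |(numIndep (red6 P Q k n0 G t).graph : ℚ) / 2 ^ K6 P Q k n0 G t - numIndep G.graph| ≤
      numIndep G.graph / (2 * t + 1) := by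
  rw [numIndep_red6]
  obtain ⟨s, hs⟩ : ∃ s, s = s6 G t := ⟨_, rfl⟩
  obtain ⟨p, hp⟩ : ∃ p, p = p5 k n0 G t := ⟨_, rfl⟩
  have hpab : G.a + G.b ≤ p := by
    rw [hp]
    unfold p5
    refine le_trans (by omega) (Nat.le_self_pow (Nat.succ_ne_zero k) _)
  have hPp : p ≤ P * p := Nat.le_mul_of_pos_left _ hP
  have hQp : p ≤ Q * p := Nat.le_mul_of_pos_left _ hQ
  have hK : K6 P Q k n0 G t = (P * p + s - G.a) + (Q * p + s - G.b) := by rw [hp, hs]; rfl
  rw [← hp, ← hs, hK]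
  have hlow := cnt_full_lower (γ := Fin (Q * p)) (δ := Fin (P * p))
    (fun (i : Fin (P * p + s)) (j : Fin (Q * p + s)) => G.F i j = true)
  have hup := cnt_full_upper (γ := Fin (Q * p)) (δ := Fin (P * p))
    (fun (i : Fin (P * p + s)) (j : Fin (Q * p + s)) => G.F i j = true)
    (N := P * p + Q * p + s) (by simp only [Fintype.card_fin]; omega)
    (by simp only [Fintype.card_fin]; omega) (by simp only [Fintype.card_fin]; omega)
  rw [cnt_padded2 G (by omega) (by omega)] at hlow hup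
  unfold rel6
  set R : ℕ := cnt (full (Fin (Q * p)) (Fin (P * p))
    (fun (i : Fin (P * p + s)) (j : Fin (Q * p + s)) => G.F i j = true)) with hR
  obtain ⟨K, hKK⟩ : ∃ K, K = (P * p + s - G.a) + (Q * p + s - G.b) := ⟨_, rfl⟩
  rw [← hKK] at hlow hup ⊢
  have hsupp := supp_lower G
  set X : ℕ := numIndep G.graph with hX
  -- the error
  have hlog : 2 * t + 1 ≤ 2 ^ (Nat.log 2 (2 * t + 1) + 1) :=
    (Nat.lt_pow_succ_log_self (by norm_num) _).le
  have herr : 2 ^ (P * p + Q * p + s + 2) * (2 * t + 1) ≤ X * 2 ^ K := by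
    have e1 : P * p + Q * p + s + 2 + (Nat.log 2 (2 * t + 1) + 1) + supp G ≤
        (G.a + G.b) + K := by
      have e2 : s = supp G + Nat.log 2 (2 * t + 1) + 4 := hs
      omega
    have e3 : 2 ^ (P * p + Q * p + s + 2) * (2 * t + 1) * 2 ^ supp G ≤
        (X * 2 ^ K) * 2 ^ supp G := by
      calc 2 ^ (P * p + Q * p + s + 2) * (2 * t + 1) * 2 ^ supp G
          ≤ 2 ^ (P * p + Q * p + s + 2) * 2 ^ (Nat.log 2 (2 * t + 1) + 1) * 2 ^ supp G := by
            gcongr
        _ = 2 ^ (P * p + Q * p + s + 2 + (Nat.log 2 (2 * t + 1) + 1) + supp G) := by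
            rw [← pow_add, ← pow_add]
        _ ≤ 2 ^ ((G.a + G.b) + K) := Nat.pow_le_pow_right (by norm_num) e1
        _ = 2 ^ (G.a + G.b) * 2 ^ K := pow_add _ _ _
        _ ≤ (X * 2 ^ supp G) * 2 ^ K := Nat.mul_le_mul_right _ hsupp
        _ = (X * 2 ^ K) * 2 ^ supp G := by ring
    exact Nat.le_of_mul_le_mul_right e3 (by positivity)
  have hKpos : (0 : ℚ) < 2 ^ K := by positivity
  have htpos : (0 : ℚ) < 2 * t + 1 := by positivity
  have q1 : (X : ℚ) * 2 ^ K ≤ R := by exact_mod_cast hlow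
  have q2 : (R : ℚ) ≤ X * 2 ^ K + 2 ^ (P * p + Q * p + s + 2) := by exact_mod_cast hup
  have q3 : (2 : ℚ) ^ (P * p + Q * p + s + 2) * (2 * t + 1) ≤ X * 2 ^ K := by exact_mod_cast herr
  have q4 : (2 : ℚ) ^ (P * p + Q * p + s + 2) ≤ X / (2 * t + 1) * 2 ^ K := by
    rw [div_mul_eq_mul_div, le_div_iff₀ htpos]
    exact q3
  rw [abs_le]
  constructor
  · have h20 : (X : ℚ) ≤ R / 2 ^ K := by
      rw [le_div_iff₀ hKpos]
      exact q1
    have h21 : (0 : ℚ) ≤ X / (2 * t + 1) := by positivity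
    linarith
  · rw [sub_le_iff_le_add, div_le_iff₀ hKpos, add_mul]
    linarith

/-! ### Polynomial time -/

theorem poly_s6 (D : BGraph × ℕ → Prop) :
    PolyN D [fun x => inCode x.1 x.2] (fun x => s6 x.1 x.2) := by
  have hw : PolyC D [fun x => inCode x.1 x.2] (fun x => inCode x.1 x.2) := PolyC.var (by simp)
  have ht := poly_s hw
  exact ((poly_supp D).add (poly_log2 (((PolyN.const 2).mul ht).add (PolyN.const 1)))).add
    (PolyN.const 4)

theorem poly_K6 (D : BGraph × ℕ → Prop) :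
    PolyN D [fun x => inCode x.1 x.2] (fun x => K6 P Q k n0 x.1 x.2) := by
  have hw : PolyC D [fun x => inCode x.1 x.2] (fun x => inCode x.1 x.2) := PolyC.var (by simp)
  have ha := poly_a hw
  have hb := poly_b hw
  have hp := poly_p5 (k := k) (n0 := n0) D
  have hs := poly_s6 D
  exact (PolyN.sub (((PolyN.const P).mul hp).add hs) ha).add
    (PolyN.sub (((PolyN.const Q).mul hp).add hs) hb)

theorem poly_red6 (D : BGraph × ℕ → Prop) :
    PolyC D [fun x => inCode x.1 x.2] (fun y => inCode (red6 P Q k n0 y.1 y.2) (2 * y.2)) := by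
  have hw : PolyC D [fun x => inCode x.1 x.2] (fun x => inCode x.1 x.2) := PolyC.var (by simp)
  have ht := poly_s hw
  have h2t := (PolyN.const 2).mul ht
  have hp := poly_p5 (k := k) (n0 := n0) D
  have hs := poly_s6 D
  have hA := ((PolyN.const P).mul hp).add hs
  have hB := ((PolyN.const Q).mul hp).add hs
  let n1 : BGraph × ℕ → ℕ := fun x => (P * p5 k n0 x.1 x.2 + s6 x.1 x.2) + Q * p5 k n0 x.1 x.2
  let n1' : BGraph × ℕ → ℕ := fun x => (Q * p5 k n0 x.1 x.2 + s6 x.1 x.2) + P * p5 k n0 x.1 x.2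
  have hn1 : PolyN D [fun x => inCode x.1 x.2] n1 := hA.add ((PolyN.const Q).mul hp)
  have hn1' : PolyN D [fun x => inCode x.1 x.2] n1' := hB.add ((PolyN.const P).mul hp)
  refine poly_inCode (a := n1) (b := n1') hn1 hn1' h2t ?_
  have A1 := upN (n := n1) hA
  have B1 := upN (n := n1) hB
  have W1 := up (n := n1) hw
  have I1 := last (D := D) (ctx := [fun x => inCode x.1 x.2]) (n := n1)
  let n2 : (BGraph × ℕ) × ℕ → ℕ := fun p => n1' p.1
  have A2 := upN (n := n2) A1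
  have B2 := upN (n := n2) B1
  have W2 := up (n := n2) W1
  have I2 := upN (n := n2) I1
  have J2 := last (D := fun p : (BGraph × ℕ) × ℕ => D p.1 ∧ p.2 < n1 p.1)
    (ctx := PolyTime.lift [fun x : BGraph × ℕ => inCode x.1 x.2] ++
      [fun p : (BGraph × ℕ) × ℕ => un p.2]) (n := n2)
  exact (((PolyB.lt I2 A2).and (PolyB.lt J2 B2)).and (poly_F W2 I2 J2)).or
    ((PolyB.le A2 I2).or (PolyB.le B2 J2))

/-- The transfer theorem for this reduction. -/
theorem transfer6 (hP : 0 < P) (hQ : 0 < Q) {C C' : BGraph → Prop}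
    (h : ∀ G t, C G → 1 ≤ t → C' (red6 P Q k n0 G t)) :
    (HasFPRAS C' → HasFPRAS C) ∧ (HasFPTAS C' → HasFPTAS C) :=
  ⟨HasFPRAS.transfer2 (red6 P Q k n0) (K6 P Q k n0) (poly_red6 k n0 _) (poly_K6 k n0 _) h
      (fun G t _ _ => close6 k n0 hP hQ G t),
    Pa7c826t.HasFPTAS.transfer2 (red6 P Q k n0) (K6 P Q k n0) (poly_red6 k n0 _) (poly_K6 k n0 _) h
      (fun G t _ _ => close6 k n0 hP hQ G t)⟩

end Pool.Agent.Lib.Pa7c826r
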